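import Mathlib

/-! Auxiliary facts for the covering conjecture over prime powers. -/

namespace Pool.Agent.H552

open Finset

section field

variable {F : Type*} [Field F] [Fintype F]

lemma sum_pow_all (m : ℕ) :
    ∑ x : F, x ^ m = if m ≠ 0 ∧ (Fintype.card F - 1) ∣ m then -1 else 0 := by
  classical
  by_cases hm : m = 0
  · subst hm
    simp
  · have h1 : ∑ x : F, x ^ m = ∑ x : Fˣ, ((x : F) ^ m) := by
      let φ : Fˣ ↪ F := ⟨fun x ↦ x, Units.val_injective⟩
      have h2 : univ.map φ = univ \ {0} := by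
        ext x
        simpa only [mem_map, mem_univ, Function.Embedding.coeFn_mk, true_and, mem_sdiff,
          mem_singleton, φ] using! isUnit_iff_ne_zero
      calc
        ∑ x : F, x ^ m = ∑ x ∈ univ \ {(0 : F)}, x ^ m := by
          rw [← sum_sdiff ({0} : Finset F).subset_univ, sum_singleton, zero_pow hm, add_zero]
        _ = ∑ x : Fˣ, (x ^ m : F) := by simp [φ, ← h2, univ.sum_map φ]
    rw [h1, FiniteField.sum_pow_units]
    simp [hm]

lemma pow_one_add (x : F) (m : ℕ) : x ^ (1 + (Fintype.card F - 1) * m) = x := by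
  classical
  by_cases hx : x = 0
  · subst hx
    rw [zero_pow (by omega)]
  · rw [pow_add, pow_one, pow_mul, FiniteField.pow_card_sub_one_eq_one x hx, one_pow, mul_one]

lemma pow_mod_card (x : F) (m : ℕ) (hm : m % (Fintype.card F - 1) ≠ 0) :
    x ^ m = x ^ (m % (Fintype.card F - 1)) := by
  classical
  by_cases hx : x = 0
  · subst hx
    rw [zero_pow hm, zero_pow (by rintro rfl; simp at hm)]
  · conv_lhs => rw [← Nat.mod_add_div m (Fintype.card F - 1)]
    rw [pow_add, pow_mul, FiniteField.pow_card_sub_one_eq_one x hx, one_pow, mul_one]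

end field

lemma choose_card_sub_one {p q : ℕ} (hp : p.Prime) {n : ℕ} (hq : q = p ^ n)
    (k : ℕ) (hk : k ≤ q - 1) : ¬ p ∣ (q - 1).choose k := by
  have hq1 : 1 ≤ q := by rw [hq]; exact Nat.one_le_pow _ _ hp.pos
  induction k with
  | zero => simp [hp.one_lt.ne']
  | succ k ih =>
    intro hdvd
    apply ih (by omega)
    have h1 : q.choose (k + 1) = (q - 1).choose k + (q - 1).choose (k + 1) := by
      conv_lhs => rw [show q = (q - 1) + 1 by omega]
      rw [Nat.choose_succ_succ]
    have h2 : p ∣ q.choose (k + 1) := by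
      rw [hq, hp.dvd_choose_pow_iff]
      constructor
      · omega
      · rw [← hq]; omega
    rw [h1] at h2
    exact (Nat.dvd_add_left hdvd).mp h2

/-- `C(k,i)` not divisible by `p` implies `C(N-(k-i), i)` not divisible by `p`. -/
lemma choose_compl {p q : ℕ} (hp : p.Prime) {n : ℕ} (hq : q = p ^ n)
    {k i : ℕ} (hk : k ≤ q - 1) (hi : i ≤ k) (h : ¬ p ∣ k.choose i) :
    ¬ p ∣ (q - 1 - (k - i)).choose i := by
  intro h1
  have h2 := Nat.choose_mul (n := q - 1) (k := k) (s := k - i) (Nat.sub_le _ _)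
  rw [Nat.sub_sub_self hi, Nat.choose_symm hi] at h2
  have h3 : p ∣ (q - 1).choose k * k.choose i := by
    rw [h2]; exact Dvd.dvd.mul_left h1 _
  rcases (Nat.Prime.dvd_mul hp).mp h3 with h4 | h4
  · exact choose_card_sub_one hp hq k hk h4
  · exact h h4

section main

variable {F : Type*} [Field F] [Fintype F] {p : ℕ} [hpf : Fact p.Prime] [CharP F p]

/-- Core combinatorial hypothesis: no nontrivial pair. -/
def NoPair (p N d e : ℕ) : Prop :=
  ∀ i a : ℕ, 1 ≤ i → i < N → 1 ≤ a → a ≤ (e * i) % N → ¬ p ∣ ((e * i) % N).choose a →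
    ¬ p ∣ ((d * a) % N).choose i → a = (e * i) % N

lemma T_mid {n : ℕ} (hq : Fintype.card F = p ^ n) {N d e : ℕ} (hN : N = Fintype.card F - 1)
    (hde : d * e % N = 1 % N) (hN2 : 2 ≤ N)
    (hno : NoPair p N d e) {k i : ℕ} (hk : k ≤ N) (hi1 : 1 ≤ i) (hiN : i < N) (hik : i ≤ k) :
    (k.choose i : F) * ∑ Y : F, ((Y ^ d + 1) ^ e) ^ i * Y ^ (k - i)
      = if k = N then - (k.choose i : F) else 0 := by
  classical
  set f := (e * i) % N with hf
  have hNpos : 0 < N := by omega
  have hcop : ∀ x, N ∣ d * x → N ∣ x := by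
    intro x hx
    have h1 : N ∣ e * (d * x) := Dvd.dvd.mul_left hx _
    have h2 : (d * e * x) ≡ x [MOD N] := by
      have : d * e ≡ 1 [MOD N] := hde
      simpa using this.mul_right x
    have h3 : e * (d * x) = d * e * x := by ring
    rw [h3] at h1
    exact (Nat.modEq_zero_iff_dvd.mp ((h2.symm.trans (Nat.modEq_zero_iff_dvd.mpr h1))))
  have hcope : ∀ x, N ∣ e * x → N ∣ x := by
    intro x hx
    have h1 : N ∣ d * (e * x) := Dvd.dvd.mul_left hx _
    have h2 : (d * e * x) ≡ x [MOD N] := by
      have : d * e ≡ 1 [MOD N] := hde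
      simpa using this.mul_right x
    have h3 : d * (e * x) = d * e * x := by ring
    rw [h3] at h1
    exact (Nat.modEq_zero_iff_dvd.mp ((h2.symm.trans (Nat.modEq_zero_iff_dvd.mpr h1))))
  have hf0 : f ≠ 0 := by
    intro h0
    have := hcope i (Nat.dvd_of_mod_eq_zero h0)
    exact absurd (Nat.le_of_dvd (by omega) this) (by omega)
  have hfN : f < N := Nat.mod_lt _ hNpos
  have hdf : d * f % N = i := by
    have h1 : d * f ≡ d * (e * i) [MOD N] := (Nat.mod_modEq _ _).mul_left d
    have h2 : d * (e * i) ≡ i [MOD N] := by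
      have : d * e ≡ 1 [MOD N] := hde
      have := this.mul_right i
      rw [one_mul, mul_assoc] at this
      exact this
    have h3 : d * f % N = i % N := h1.trans h2
    rw [h3, Nat.mod_eq_of_lt hiN]
  -- rewrite the sum
  have hR : ∀ Y : F, ((Y ^ d + 1) ^ e) ^ i = ∑ a ∈ range (f + 1), (f.choose a : F) * Y ^ (d * a) := by
    intro Y
    rw [← pow_mul, pow_mod_card _ (e * i) (by rw [← hN]; exact hf0), ← hN, ← hf, add_pow]
    apply sum_congr rfl
    intro a _
    rw [one_pow, mul_one, ← pow_mul, mul_comm]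
  have hsum : ∑ Y : F, ((Y ^ d + 1) ^ e) ^ i * Y ^ (k - i)
      = ∑ a ∈ range (f + 1), (f.choose a : F) *
        (if d * a + (k - i) ≠ 0 ∧ N ∣ d * a + (k - i) then -1 else 0) := by
    calc ∑ Y : F, ((Y ^ d + 1) ^ e) ^ i * Y ^ (k - i)
        = ∑ Y : F, ∑ a ∈ range (f + 1), (f.choose a : F) * Y ^ (d * a + (k - i)) := by
          apply sum_congr rfl
          intro Y _
          rw [hR, sum_mul]
          apply sum_congr rfl
          intro a _
          rw [pow_add, mul_assoc]
      _ = ∑ a ∈ range (f + 1), (f.choose a : F) * ∑ Y : F, Y ^ (d * a + (k - i)) := by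
          rw [sum_comm]
          apply sum_congr rfl
          intro a _
          rw [mul_sum]
      _ = _ := by
          apply sum_congr rfl
          intro a _
          rw [sum_pow_all, ← hN]
  rw [hsum, mul_sum]
  have hterm : ∀ a ∈ range (f + 1), a ≠ f →
      (k.choose i : F) * ((f.choose a : F) *
        (if d * a + (k - i) ≠ 0 ∧ N ∣ d * a + (k - i) then -1 else 0)) = 0 := by
    intro a ha haf
    rw [mem_range] at ha
    by_contra hne
    have h1 : (k.choose i : F) ≠ 0 := left_ne_zero_of_mul hne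
    have h2 : (f.choose a : F) ≠ 0 := left_ne_zero_of_mul (right_ne_zero_of_mul hne)
    have h3 := right_ne_zero_of_mul (right_ne_zero_of_mul hne)
    have h4 : d * a + (k - i) ≠ 0 ∧ N ∣ d * a + (k - i) := by
      by_contra h
      rw [if_neg h] at h3
      exact h3 rfl
    have hp1 : ¬ p ∣ k.choose i := by
      rwa [Ne, CharP.cast_eq_zero_iff F p] at h1
    have hp2 : ¬ p ∣ f.choose a := by
      rwa [Ne, CharP.cast_eq_zero_iff F p] at h2
    have ha1 : 1 ≤ a := by
      by_contra h
      have ha0 : a = 0 := by omega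
      subst ha0
      simp only [mul_zero, zero_add] at h4
      have := Nat.le_of_dvd (by omega) h4.2
      omega
    have hki : 1 ≤ k - i := by
      by_contra h
      have h0 : k - i = 0 := by omega
      rw [h0, add_zero] at h4
      have := Nat.le_of_dvd (by omega) (hcop a h4.2)
      omega
    have hda : d * a % N = N - (k - i) := by
      obtain ⟨c, hc⟩ := h4.2
      have h5 : d * a % N < N := Nat.mod_lt _ hNpos
      have h6 : (d * a + (k - i)) % N = 0 := by rw [hc]; simp
      have h7 : (d * a % N + (k - i)) % N = 0 := by rwa [Nat.mod_add_mod]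
      have h8 : N ∣ d * a % N + (k - i) := Nat.dvd_of_mod_eq_zero h7
      obtain ⟨c', hc'⟩ := h8
      have hc1 : c' < 2 := by
        by_contra h
        have : N * 2 ≤ N * c' := Nat.mul_le_mul_left _ (by omega)
        omega
      have hc2 : c' ≠ 0 := by
        rintro rfl
        omega
      have : c' = 1 := by omega
      subst this
      omega
    have hp3 : ¬ p ∣ ((d * a) % N).choose i := by
      rw [hda, hN]
      exact choose_compl hpf.out hq (by omega) hik hp1
    exact haf (hno i a hi1 hiN ha1 (by omega) hp2 hp3)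
  rw [sum_eq_single_of_mem f (by simp) (fun a ha haf => hterm a ha haf)]
  by_cases hkN : k = N
  · subst hkN
    have hc : d * f + (k - i) ≠ 0 ∧ k ∣ d * f + (k - i) := by
      constructor
      · omega
      · have h1 : (d * f + (k - i)) % k = 0 := by
          rw [← Nat.mod_add_mod, hdf]
          have : i + (k - i) = k := by omega
          rw [this, Nat.mod_self]
        exact Nat.dvd_of_mod_eq_zero h1
    rw [if_pos hc, Nat.choose_self]
    simp
  · have hc : ¬ (d * f + (k - i) ≠ 0 ∧ N ∣ d * f + (k - i)) := by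
      rintro ⟨_, h2⟩
      have h1 : (d * f % N + (k - i)) % N = 0 := by
        rw [Nat.mod_add_mod]; exact Nat.mod_eq_zero_of_dvd h2
      rw [hdf] at h1
      have : i + (k - i) = k := by omega
      rw [this, Nat.mod_eq_of_lt (by omega)] at h1
      omega
    rw [if_neg hc, if_neg hkN]
    simp

/-- Power sums of `A Y + R(Y)`. -/
lemma power_sum {n : ℕ} (hq : Fintype.card F = p ^ n) {N d e : ℕ} (hN : N = Fintype.card F - 1)
    (hde : d * e % N = 1 % N) (hN2 : 2 ≤ N)
    (hno : NoPair p N d e) (A : F) {k : ℕ} (hk : k ≤ N) :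
    ∑ Y : F, ((Y ^ d + 1) ^ e + A * Y) ^ k = if k = N then - (1 + A) ^ N else 0 := by
  classical
  have hbij : ∀ x : F, x ^ (d * e) = x := by
    intro x
    have h1 : 1 % N = 1 := Nat.mod_eq_of_lt (by omega)
    have h2 : d * e = 1 + N * (d * e / N) := by
      conv_lhs => rw [← Nat.mod_add_div (d * e) N]
      rw [hde, h1]
    rw [h2, hN]
    exact pow_one_add x _
  have hRinj : Function.Injective (fun Y : F => (Y ^ d + 1) ^ e) := by
    intro Y Z hYZ
    simp only at hYZ
    have h1 : (Y ^ d + 1) ^ (d * e) = (Z ^ d + 1) ^ (d * e) := by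
      rw [mul_comm, pow_mul, pow_mul, hYZ]
    rw [hbij, hbij] at h1
    have h2 : Y ^ d = Z ^ d := by simpa using h1
    rw [← hbij Y, ← hbij Z, pow_mul, pow_mul, h2]
  have hRbij : Function.Bijective (fun Y : F => (Y ^ d + 1) ^ e) :=
    Finite.injective_iff_bijective.mp hRinj
  have hT : ∀ i, i ≤ k → (k.choose i : F) * ∑ Y : F, ((Y ^ d + 1) ^ e) ^ i * Y ^ (k - i)
      = if k = N then - (k.choose i : F) else 0 := by
    intro i hik
    by_cases hi0 : i = 0
    · subst hi0
      simp only [Nat.choose_zero_right, Nat.cast_one, pow_zero, one_mul, Nat.sub_zero]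
      rw [sum_pow_all, ← hN]
      by_cases hkN : k = N
      · rw [if_pos hkN, if_pos]
        exact ⟨by omega, by rw [hkN]⟩
      · rw [if_neg hkN, if_neg]
        rintro ⟨h1, h2⟩
        have := Nat.le_of_dvd (by omega) h2
        omega
    · by_cases hiN : i < N
      · exact T_mid hq hN hde hN2 hno hk (by omega) hiN hik
      · have hiN' : i = N := by omega
        have hkN : k = N := by omega
        subst hkN
        subst hiN'
        simp only [Nat.choose_self, Nat.cast_one, Nat.sub_self, pow_zero, mul_one, one_mul, if_true]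
        have := hRbij.sum_comp (fun x : F => x ^ i)
        rw [this, sum_pow_all, ← hN, if_pos]
        exact ⟨by omega, dvd_rfl⟩
  have h1 : ∑ Y : F, ((Y ^ d + 1) ^ e + A * Y) ^ k
      = ∑ i ∈ range (k + 1), A ^ (k - i) *
        ((k.choose i : F) * ∑ Y : F, ((Y ^ d + 1) ^ e) ^ i * Y ^ (k - i)) := by
    calc ∑ Y : F, ((Y ^ d + 1) ^ e + A * Y) ^ k
        = ∑ Y : F, ∑ i ∈ range (k + 1), A ^ (k - i) *
            ((k.choose i : F) * (((Y ^ d + 1) ^ e) ^ i * Y ^ (k - i))) := by
          apply sum_congr rfl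
          intro Y _
          rw [add_pow]
          apply sum_congr rfl
          intro i _
          rw [mul_pow]
          ring
      _ = _ := by
          rw [sum_comm]
          apply sum_congr rfl
          intro i _
          rw [← mul_sum, ← mul_sum]
  rw [h1]
  by_cases hkN : k = N
  · subst hkN
    rw [if_pos rfl, add_pow, ← sum_neg_distrib]
    apply sum_congr rfl
    intro i hi
    rw [mem_range] at hi
    rw [hT i (by omega), if_pos rfl, one_pow]
    ring
  · rw [if_neg hkN]
    apply sum_eq_zero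
    intro i hi
    rw [mem_range] at hi
    rw [hT i (by omega), if_neg hkN, mul_zero]

/-- `A Y + R(Y)` is a bijection for `A ≠ -1`. -/
lemma perm {n : ℕ} (hq : Fintype.card F = p ^ n) {N d e : ℕ} (hN : N = Fintype.card F - 1)
    (hde : d * e % N = 1 % N) (hN2 : 2 ≤ N)
    (hno : NoPair p N d e) (A : F) (hA : 1 + A ≠ 0) :
    Function.Injective (fun Y : F => (Y ^ d + 1) ^ e + A * Y) := by
  classical
  rw [Finite.injective_iff_surjective]
  intro c
  by_contra hc
  push Not at hc
  have h1 : ∀ Y : F, (((Y ^ d + 1) ^ e + A * Y) + (-c)) ^ N = 1 := by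
    intro Y
    rw [hN]
    apply FiniteField.pow_card_sub_one_eq_one
    intro h
    apply hc Y
    rw [← sub_eq_add_neg] at h
    exact sub_eq_zero.mp h
  have h2 : ∑ Y : F, (((Y ^ d + 1) ^ e + A * Y) + (-c)) ^ N = 0 := by
    rw [sum_congr rfl (fun Y _ => h1 Y)]
    simp
  have h3 : ∑ Y : F, (((Y ^ d + 1) ^ e + A * Y) + (-c)) ^ N
      = ∑ k ∈ range (N + 1), (N.choose k : F) * (-c) ^ (N - k) *
        ∑ Y : F, ((Y ^ d + 1) ^ e + A * Y) ^ k := by
    calc ∑ Y : F, (((Y ^ d + 1) ^ e + A * Y) + (-c)) ^ N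
        = ∑ Y : F, ∑ k ∈ range (N + 1), (N.choose k : F) * (-c) ^ (N - k) *
            ((Y ^ d + 1) ^ e + A * Y) ^ k := by
          apply sum_congr rfl
          intro Y _
          rw [add_pow]
          apply sum_congr rfl
          intro k _
          ring
      _ = _ := by
          rw [sum_comm]
          apply sum_congr rfl
          intro k _
          rw [mul_sum]
  rw [h3, sum_eq_single_of_mem N (by simp)] at h2
  · rw [power_sum hq hN hde hN2 hno A le_rfl, if_pos rfl, Nat.choose_self, Nat.sub_self, pow_zero,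
      hN, FiniteField.pow_card_sub_one_eq_one _ hA] at h2
    simp at h2
  · intro k hk hkN
    rw [mem_range] at hk
    rw [power_sum hq hN hde hN2 hno A (by omega), if_neg hkN, mul_zero]

/-- Under `NoPair`, `Y ↦ Y^d` is a power of Frobenius. -/
theorem frob_of_noPair {n : ℕ} (hq : Fintype.card F = p ^ n) {N d e : ℕ}
    (hN : N = Fintype.card F - 1)
    (hde : d * e % N = 1 % N) (hN2 : 2 ≤ N)
    (hno : NoPair p N d e) : ∃ j : ℕ, ∀ x : F, x ^ d = x ^ p ^ j := by
  classical
  have hd0 : d ≠ 0 := by
    rintro rfl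
    rw [zero_mul, Nat.zero_mod, Nat.mod_eq_of_lt (by omega)] at hde
    omega
  have he0 : e ≠ 0 := by
    rintro rfl
    rw [mul_zero, Nat.zero_mod, Nat.mod_eq_of_lt (by omega)] at hde
    omega
  have hbij : ∀ x : F, x ^ (d * e) = x := by
    intro x
    have h1 : 1 % N = 1 := Nat.mod_eq_of_lt (by omega)
    have h2 : d * e = 1 + N * (d * e / N) := by
      conv_lhs => rw [← Nat.mod_add_div (d * e) N]
      rw [hde, h1]
    rw [h2, hN]
    exact pow_one_add x _
  -- slopes
  have hslope : ∀ Y : F, (Y ^ d + 1) ^ e = Y + 1 := by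
    intro Y
    by_cases hY : Y = 0
    · subst hY
      rw [zero_pow hd0]; simp
    · by_contra hne
      set s := ((Y ^ d + 1) ^ e - 1) / Y with hs
      have hs1 : s ≠ 1 := by
        intro h
        rw [hs, div_eq_one_iff_eq hY] at h
        exact hne (by linear_combination h)
      have hinj := perm hq hN hde hN2 hno (-s) (by
        intro h
        apply hs1
        have : 1 = s := by linear_combination h
        exact this.symm)
      have : Y = 0 := by
        apply hinj
        simp only
        rw [zero_pow hd0]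
        have : s * Y = (Y ^ d + 1) ^ e - 1 := by
          rw [hs, div_mul_cancel₀ _ hY]
        simp only [zero_add, one_pow, mul_zero, add_zero, neg_mul, this]
        ring
      exact hY this
  have hadd1 : ∀ Y : F, (Y + 1) ^ d = Y ^ d + 1 := by
    intro Y
    rw [← hslope Y, ← pow_mul, mul_comm, hbij]
  have hadd : ∀ X Y : F, (X + Y) ^ d = X ^ d + Y ^ d := by
    intro X Y
    by_cases hX : X = 0
    · subst hX; rw [zero_add, zero_pow hd0, zero_add]
    · have : X + Y = X * (Y / X + 1) := by field_simp; ring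
      rw [this, mul_pow, hadd1, mul_add, mul_one, ← mul_pow, mul_div_cancel₀ _ hX, add_comm]
  let φ : F →+* F :=
    { toFun := fun x => x ^ d
      map_one' := one_pow d
      map_mul' := fun x y => mul_pow x y d
      map_zero' := zero_pow hd0
      map_add' := hadd }
  let : Algebra (ZMod p) F := ZMod.algebra F p
  have hcomm : ∀ r : ZMod p, φ (algebraMap (ZMod p) F r) = algebraMap (ZMod p) F r := fun r =>
    RingHom.congr_fun (Subsingleton.elim (φ.comp (algebraMap (ZMod p) F))
      (algebraMap (ZMod p) F)) r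
  let ψ : F →ₐ[ZMod p] F := { φ with commutes' := hcomm }
  obtain ⟨j, hj⟩ := (FiniteField.bijective_frobeniusAlgHom_pow (ZMod p) F).2 ψ
  refine ⟨j.1, fun x => ?_⟩
  have h1 : ψ x = x ^ d := rfl
  rw [← h1, ← hj]
  simp only [AlgHom.coe_pow, FiniteField.coe_frobeniusAlgHom, pow_iterate, ZMod.card]

end main

/-! ### Digits -/

lemma mod_pow_le {p x y : ℕ} : ∀ f : ℕ, (∀ i < f, x / p ^ i % p ≤ y / p ^ i % p) →
    x % p ^ f ≤ y % p ^ f := by
  intro f
  induction f with
  | zero => intro _; simp [Nat.mod_one]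
  | succ f ih =>
    intro h
    rw [Nat.mod_pow_succ, Nat.mod_pow_succ]
    exact Nat.add_le_add (ih (fun i hi => h i (by omega)))
      (Nat.mul_le_mul_left _ (h f (by omega)))

lemma base_change {p f n x y : ℕ} (h : ∀ i < f * n, x / p ^ i % p ≤ y / p ^ i % p) :
    ∀ j < n, x / (p ^ f) ^ j % p ^ f ≤ y / (p ^ f) ^ j % p ^ f := by
  intro j hj
  apply mod_pow_le
  intro i hi
  rw [Nat.div_div_eq_div_mul, Nat.div_div_eq_div_mul, ← pow_mul, ← pow_add]
  apply h
  calc f * j + i < f * j + f := by omega
    _ = f * (j + 1) := by ring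
    _ ≤ f * n := Nat.mul_le_mul_left _ hj

lemma digits_of_choose {p : ℕ} (hp : p.Prime) {K a b : ℕ} (ha : a < p ^ K) (hb : b < p ^ K)
    (h : ¬ p ∣ b.choose a) : ∀ i < K, a / p ^ i % p ≤ b / p ^ i % p := by
  have := Fact.mk hp
  intro i hi
  by_contra hlt
  push Not at hlt
  apply h
  have h1 := Choose.choose_modEq_prod_range_choose_nat (p := p) hb ha
  have h2 : ∏ i ∈ range K, (b / p ^ i % p).choose (a / p ^ i % p) = 0 :=
    prod_eq_zero (mem_range.mpr hi) (Nat.choose_eq_zero_of_lt hlt)
  rw [h2] at h1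
  exact (Nat.modEq_zero_iff_dvd.mp h1)

lemma exists_digit {t : ℕ} (_ht : 2 ≤ t) : ∀ (n b : ℕ), b ≠ 0 → b < t ^ n →
    ∃ i < n, b / t ^ i % t ≠ 0 := by
  intro n
  induction n with
  | zero => intro b hb hlt; simp at hlt; exact absurd hlt hb
  | succ n ih =>
    intro b hb hlt
    by_cases h0 : b % t = 0
    · have hbt : b / t ≠ 0 := by
        intro h
        have := Nat.mod_add_div b t
        rw [h0, h] at this
        simp at this
        exact hb this.symm
      obtain ⟨i, hi, h⟩ := ih (b / t) hbt (by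
        apply Nat.div_lt_of_lt_mul
        rwa [← pow_succ'])
      refine ⟨i + 1, by omega, ?_⟩
      rwa [pow_succ', ← Nat.div_div_eq_div_mul]
    · exact ⟨0, by omega, by simpa using h0⟩

lemma digit_pow {t : ℕ} (ht : 2 ≤ t) (i j : ℕ) : t ^ i / t ^ j % t = if j = i then 1 else 0 := by
  by_cases h : j = i
  · subst h
    rw [if_pos rfl, Nat.div_self (pow_pos (by omega) _), Nat.mod_eq_of_lt (by omega)]
  · rw [if_neg h]
    rcases lt_or_gt_of_ne h with h1 | h1
    · rw [Nat.pow_div h1.le (by omega)]
      obtain ⟨k, hk⟩ : ∃ k, i - j = k + 1 := ⟨i - j - 1, by omega⟩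
      rw [hk, pow_succ]
      simp
    · rw [Nat.div_eq_of_lt (Nat.pow_lt_pow_right (by omega) h1)]
      simp

lemma digit_repunit {t : ℕ} (ht : 2 ≤ t) {c : ℕ} (hc : c < t) : ∀ (n i : ℕ), i < n →
    (c * ∑ j ∈ range n, t ^ j) / t ^ i % t = c := by
  intro n
  induction n with
  | zero => intro i hi; omega
  | succ n ih =>
    intro i hi
    have h1 : c * ∑ j ∈ range (n + 1), t ^ j = c + t * (c * ∑ j ∈ range n, t ^ j) := by
      rw [sum_range_succ', mul_add]
      simp only [pow_zero, mul_one]
      rw [mul_sum, mul_sum, mul_sum, add_comm]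
      congr 1
      apply sum_congr rfl
      intro j _
      ring
    rw [h1]
    rcases Nat.eq_zero_or_pos i with h0 | h0
    · subst h0
      simp [Nat.mod_eq_of_lt hc]
    · obtain ⟨k, rfl⟩ : ∃ k, i = k + 1 := ⟨i - 1, by omega⟩
      rw [pow_succ', ← Nat.div_div_eq_div_mul, Nat.add_mul_div_left _ _ (by omega),
        Nat.div_eq_of_lt hc, zero_add]
      exact ih k (by omega)

end Pool.Agent.H552
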