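import Pool.Agent.H552.GossDefs

/-! Residues at a place, and the sign function attached to a uniformizer. -/

namespace Pool.Agent.H552.Goss

open scoped WithZero

namespace Place

variable {F K : Type} [Field F] [Field K] [Algebra F K] (P : Place F K)

theorem integers : P.val.Integers P.ring := Valuation.valuationSubring.integers _

open scoped Classical in
/-- The residue of an element (zero outside the valuation ring). -/
noncomputable def rs (z : K) : P.Residue :=
  if h : z ∈ P.ring then P.reduction ⟨z, h⟩ else 0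

theorem rs_of_mem {z : K} (h : z ∈ P.ring) : P.rs z = P.reduction ⟨z, h⟩ := by
  rw [rs, dif_pos h]

theorem rs_add {z w : K} (hz : P.val z ≤ 1) (hw : P.val w ≤ 1) :
    P.rs (z + w) = P.rs z + P.rs w := by
  have hz' := P.mem_ring.mpr hz
  have hw' := P.mem_ring.mpr hw
  rw [P.rs_of_mem hz', P.rs_of_mem hw', P.rs_of_mem (add_mem hz' hw'), ← map_add]
  rfl

theorem rs_sub {z w : K} (hz : P.val z ≤ 1) (hw : P.val w ≤ 1) :
    P.rs (z - w) = P.rs z - P.rs w := by
  have hz' := P.mem_ring.mpr hz
  have hw' := P.mem_ring.mpr hw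
  rw [P.rs_of_mem hz', P.rs_of_mem hw', P.rs_of_mem (sub_mem hz' hw'), ← map_sub]
  rfl

theorem rs_mul {z w : K} (hz : P.val z ≤ 1) (hw : P.val w ≤ 1) :
    P.rs (z * w) = P.rs z * P.rs w := by
  have hz' := P.mem_ring.mpr hz
  have hw' := P.mem_ring.mpr hw
  rw [P.rs_of_mem hz', P.rs_of_mem hw', P.rs_of_mem (mul_mem hz' hw'), ← map_mul]
  rfl

theorem rs_one : P.rs 1 = 1 := by
  rw [P.rs_of_mem (one_mem _)]
  exact map_one P.reduction

theorem rs_const (c : F) : P.rs (algebraMap F K c) = algebraMap F P.Residue c := by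
  rw [P.rs_of_mem (P.const_mem c)]
  rfl

theorem rs_eq_zero_iff {z : K} (hz : P.val z ≤ 1) : P.rs z = 0 ↔ P.val z < 1 := by
  have hz' := P.mem_ring.mpr hz
  have h0 : P.reduction ⟨z, hz'⟩ = 0 ↔ (⟨z, hz'⟩ : P.ring) ∈ IsLocalRing.maximalIdeal P.ring :=
    IsLocalRing.residue_eq_zero_iff _
  rw [P.rs_of_mem hz', h0, IsLocalRing.mem_maximalIdeal, mem_nonunits_iff]
  have hv := P.integers
  have : IsUnit (⟨z, hz'⟩ : P.ring) ↔ P.val z = 1 :=
    ⟨fun hu => hv.one_of_isUnit hu, fun h => hv.isUnit_of_one' h⟩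
  rw [this]
  exact ⟨fun h => lt_of_le_of_ne hz h, fun h => h.ne⟩

theorem rs_pow {z : K} (hz : P.val z ≤ 1) (n : ℕ) : P.rs (z ^ n) = P.rs z ^ n := by
  induction n with
  | zero => rw [pow_zero, pow_zero, P.rs_one]
  | succ n ih =>
    rw [pow_succ, P.rs_mul _ hz, ih, pow_succ]
    rw [map_pow]; exact pow_le_one₀ zero_le hz

theorem exists_rs (s : P.Residue) : ∃ z : K, P.val z ≤ 1 ∧ P.rs z = s := by
  obtain ⟨⟨z, hz⟩, h⟩ := IsLocalRing.residue_surjective (R := P.ring) s
  exact ⟨z, P.mem_ring.mp hz, (P.rs_of_mem hz).trans h⟩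

theorem rs_ne_zero {z : K} (hz : P.val z = 1) : P.rs z ≠ 0 := by
  intro h
  exact absurd ((P.rs_eq_zero_iff hz.le).mp h) (by rw [hz]; exact lt_irrefl _)

theorem rs_congr {z w : K} (hz : P.val z ≤ 1) (hzw : P.val (z - w) < 1) : P.rs z = P.rs w := by
  have hw : P.val w ≤ 1 := by
    have : w = z - (z - w) := by ring
    rw [this]
    exact P.val.map_sub_le hz hzw.le
  have h1 := P.rs_sub hz hw
  rw [(P.rs_eq_zero_iff hzw.le).mpr hzw] at h1
  exact (sub_eq_zero.mp h1.symm)

variable (ϖ : K) (hϖ : P.val ϖ = WithZero.exp (-1))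

include hϖ in
theorem val_norm {z : K} (hz : z ≠ 0) : P.val (z * ϖ ^ (WithZero.log (P.val z))) = 1 := by
  have h0 : P.val z ≠ 0 := by rwa [Ne, map_eq_zero]
  rw [map_mul, map_zpow₀, hϖ, ← WithZero.exp_zsmul, ← WithZero.exp_log h0]
  simp only [WithZero.log_exp, ← WithZero.exp_add]
  simp

open scoped Classical in
/-- The sign function attached to a uniformizer. -/
noncomputable def signOf : P.SignFunction where
  toHom :=
    { toFun := fun z => if z = 0 then 0 else P.rs (z * ϖ ^ (WithZero.log (P.val z)))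
      map_zero' := by simp
      map_one' := by simp [P.rs_one]
      map_mul' := by
        intro z w
        by_cases hz0 : z = 0
        · simp [hz0]
        by_cases hw0 : w = 0
        · simp [hw0]
        have hz := P.val_norm ϖ hϖ hz0
        have hw := P.val_norm ϖ hϖ hw0
        have hϖ0 : ϖ ≠ 0 := by
          rintro rfl
          rw [map_zero] at hϖ
          exact absurd hϖ (WithZero.exp_ne_zero).symm
        simp only [hz0, hw0, mul_eq_zero, or_self, if_false]
        rw [← P.rs_mul hz.le hw.le, map_mul, WithZero.log_mul, zpow_add₀ hϖ0]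
        · congr 1; ring
        · rwa [Ne, map_eq_zero]
        · rwa [Ne, map_eq_zero] }
  unit := by
    intro u hu
    have hv := P.integers
    have h1 : P.val (u : K) = 1 := hv.one_of_isUnit hu
    have h0 : (u : K) ≠ 0 := by
      intro h0
      rw [h0, map_zero] at h1
      exact zero_ne_one h1
    have : P.rs (u : K) = P.reduction u := P.rs_of_mem u.2
    change (if (u : K) = 0 then 0 else P.rs ((u : K) * ϖ ^ (WithZero.log (P.val (u : K))))) = _
    rw [if_neg h0, h1]
    simpa using this

theorem signOf_apply {z : K} (hz : z ≠ 0) :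
    (P.signOf ϖ hϖ).toHom z = P.rs (z * ϖ ^ (WithZero.log (P.val z))) := by
  classical
  change (if z = 0 then 0 else P.rs (z * ϖ ^ (WithZero.log (P.val z)))) = _
  rw [if_neg hz]

/-- The sign of an element does not change under adding an element of smaller absolute value. -/
theorem sign_add (sgn : P.SignFunction) {a b : K} (ha : a ≠ 0)
    (hb : P.val b < P.val a) : sgn.toHom (a + b) = sgn.toHom a := by
  have hva : P.val a ≠ 0 := by rwa [Ne, map_eq_zero]
  have hba : P.val (b / a) < 1 := by
    rw [map_div₀]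
    exact (div_lt_one₀ (zero_lt_iff.mpr hva)).mpr hb
  have h1 : P.val (1 + b / a) = 1 := by
    rw [Valuation.map_add_eq_of_lt_left, map_one]
    rwa [map_one]
  have hm : 1 + b / a ∈ P.ring := P.mem_ring.mpr h1.le
  have hv := P.integers
  have hu : IsUnit (⟨1 + b / a, hm⟩ : P.ring) := hv.isUnit_of_one' h1
  have e : a + b = a * (1 + b / a) := by
    rw [mul_add, mul_one, mul_div_cancel₀ _ ha]
  rw [e, map_mul]
  have h2 := sgn.unit _ hu
  rw [← P.rs_of_mem hm, P.rs_add (by rw [map_one]) hba.le, P.rs_one,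
      (P.rs_eq_zero_iff hba.le).mpr hba, add_zero] at h2
  change sgn.toHom a * sgn.toHom (1 + b / a) = _
  have h3 : sgn.toHom (1 + b / a) = 1 := h2
  rw [h3, mul_one]

end Place

end Pool.Agent.H552.Goss
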