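import Pool.Agent.H552.GossRing
import Pool.Agent.H552.GossRes

/-! The residue field at infinity of the curve. -/

namespace Pool.Agent.H552.Goss

open scoped WithZero

variable {K : Type} [Field K] [Algebra (ZMod 5) K] {x y : K}

theorem Curve.vx (C : Curve x y) : C.val x = WithZero.exp 5 := by
  obtain ⟨-, h, -, -⟩ := exists_G C.val C.one_lt_val_x C.eq rfl
  rw [h, C.val_pi, ← WithZero.exp_nsmul]
  rfl

theorem Curve.vy (C : Curve x y) : C.val y = WithZero.exp 5 := by
  rw [val_y C.val C.one_lt_val_x C.eq, C.vx]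

theorem Curve.vt (C : Curve x y) : C.val (y ^ 2 - 2 * x ^ 2) = WithZero.exp 6 := by
  obtain ⟨-, -, -, h⟩ := exists_G C.val C.one_lt_val_x C.eq rfl
  rw [h, C.val_pi, ← WithZero.exp_nsmul]
  rfl

/-- The uniformizer. -/
noncomputable def varpi (x y : K) : K := x / (y ^ 2 - 2 * x ^ 2)

theorem Curve.v_varpi (C : Curve x y) : C.val (varpi x y) = WithZero.exp (-1) := by
  rw [varpi, map_div₀, C.vx, C.vt, ← WithZero.exp_sub]
  rfl

theorem Curve.varpi_ne (C : Curve x y) : varpi x y ≠ 0 := div_ne_zero C.x_ne C.t_ne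

theorem Curve.v_varpi_pow (C : Curve x y) (n : ℕ) :
    C.val (varpi x y ^ n) = WithZero.exp (-(n : ℤ)) := by
  rw [map_pow, C.v_varpi, ← WithZero.exp_nsmul]
  simp

/-- The generator of the residue field. -/
noncomputable def Curve.rho (C : Curve x y) : C.place.Residue := C.place.rs (y / x)

theorem Curve.vr (C : Curve x y) : C.val (y / x) = 1 := by
  rw [map_div₀, C.vx, C.vy, div_self WithZero.exp_ne_zero]

theorem Curve.two_eq (C : Curve x y) : C.place.rs (2 : K) = 2 := by
  have := C.place.rs_const 2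
  rwa [map_ofNat, map_ofNat] at this

theorem Curve.rho_sq (C : Curve x y) : C.rho ^ 2 = 2 := by
  have hr : C.place.val (y / x) ≤ 1 := C.vr.le
  rw [Curve.rho, ← C.place.rs_pow hr, ← C.two_eq]
  apply C.place.rs_congr
  · rw [map_pow]; exact pow_le_one₀ zero_le hr
  · have e : (y / x) ^ 2 - 2 = (y ^ 2 - 2 * x ^ 2) / x ^ 2 := by
      field_simp [C.x_ne]
    rw [e]
    change C.val _ < 1
    rw [map_div₀, C.vt, map_pow, C.vx, ← WithZero.exp_nsmul, ← WithZero.exp_sub,
      ← WithZero.exp_zero, WithZero.exp_lt_exp]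
    norm_num

theorem Curve.five_res (C : Curve x y) : (5 : C.place.Residue) = 0 := by
  have : algebraMap (ZMod 5) C.place.Residue 5 = 0 := by
    have : (5 : ZMod 5) = 0 := by decide
    rw [this, map_zero]
  rwa [map_ofNat] at this

/-- The unit `x ϖ^5 = t ϖ^6`. -/
noncomputable def kap (x y : K) : K := x * varpi x y ^ 5

theorem Curve.kap_eq (C : Curve x y) : kap x y = (y ^ 2 - 2 * x ^ 2) * varpi x y ^ 6 := by
  have h : x = (y ^ 2 - 2 * x ^ 2) * varpi x y := by
    rw [varpi, mul_div_cancel₀ _ C.t_ne]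
  rw [kap, pow_succ (varpi x y) 5]
  conv_lhs => rw [h]
  rw [← h]
  rw [mul_comm (varpi x y ^ 5) (varpi x y), ← mul_assoc, ← h]

theorem Curve.v_kap (C : Curve x y) : C.val (kap x y) = 1 := by
  rw [kap, map_mul, C.v_varpi_pow, C.vx, ← WithZero.exp_add]
  simp

theorem Curve.rs_kap (C : Curve x y) : C.place.rs (kap x y) = 3 := by
  have h5 := C.five_res
  set b := 2 * (y ^ 2 - 2 * x ^ 2) ^ 3 + 2 * (x ^ 2 * (y ^ 2 - 2 * x ^ 2) ^ 2) -
    x ^ 4 * (y ^ 2 - 2 * x ^ 2) - (y ^ 2 - 2 * x ^ 2) + 1 with hb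
  have hbv : C.val b < C.val x ^ 6 := val_bracket C.val C.one_lt_val_x C.eq rfl
  have e : 2 * kap x y - 1 = - (b / (y ^ 2 - 2 * x ^ 2) ^ 5) := by
    have h1 := id2 C.eq (rfl : y ^ 2 - 2 * x ^ 2 = y ^ 2 - 2 * x ^ 2)
    rw [← hb] at h1
    have ht := C.t_ne
    rw [kap, varpi, div_pow]
    rw [eq_neg_iff_add_eq_zero, mul_div_assoc', mul_div_assoc', sub_add_eq_add_sub, ← add_div,
      div_sub_one (pow_ne_zero 5 ht), div_eq_zero_iff]
    left
    rw [h1]; ring
  have hlt : C.place.val (2 * kap x y - 1) < 1 := by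
    rw [e, Valuation.map_neg]
    change C.val _ < 1
    rw [map_div₀, map_pow, C.vt]
    rw [C.vx] at hbv
    rw [div_lt_one₀ (pow_pos (zero_lt_iff.mpr WithZero.exp_ne_zero) _)]
    refine hbv.trans_le (le_of_eq ?_)
    rw [← WithZero.exp_nsmul, ← WithZero.exp_nsmul]
    rfl
  have hk : C.place.val (kap x y) ≤ 1 := C.v_kap.le
  have h2 : C.place.val (2 : K) ≤ 1 := (val_two C.val).le
  have h3 := C.place.rs_congr (z := 2 * kap x y) (w := 1)
    (by rw [map_mul]; exact mul_le_one' h2 hk) hlt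
  rw [C.place.rs_mul h2 hk, C.two_eq, C.place.rs_one] at h3
  linear_combination 3 * h3 - C.place.rs (kap x y) * h5

/-- The elements of the residue field of the form `α + β ρ`. -/
def Curve.InK (C : Curve x y) (s : C.place.Residue) : Prop :=
  ∃ a b : ZMod 5, s = algebraMap (ZMod 5) _ a + algebraMap (ZMod 5) _ b * C.rho

theorem Curve.InK.mul {C : Curve x y} {s s' : C.place.Residue} (h : C.InK s) (h' : C.InK s') :
    C.InK (s * s') := by
  obtain ⟨a, b, rfl⟩ := h
  obtain ⟨c, d, rfl⟩ := h'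
  refine ⟨a * c + 2 * (b * d), a * d + b * c, ?_⟩
  simp only [map_add, map_mul, map_ofNat]
  linear_combination (algebraMap (ZMod 5) C.place.Residue b) *
    (algebraMap (ZMod 5) C.place.Residue d) * C.rho_sq

theorem Curve.InK.add {C : Curve x y} {s s' : C.place.Residue} (h : C.InK s) (h' : C.InK s') :
    C.InK (s + s') := by
  obtain ⟨a, b, rfl⟩ := h
  obtain ⟨c, d, rfl⟩ := h'
  refine ⟨a + c, b + d, ?_⟩
  simp only [map_add]
  ring

theorem Curve.InK.const {C : Curve x y} (c : ZMod 5) :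
    C.InK (algebraMap (ZMod 5) C.place.Residue c) := ⟨c, 0, by simp⟩

theorem Curve.InK.pow {C : Curve x y} {s : C.place.Residue} (h : C.InK s) (n : ℕ) :
    C.InK (s ^ n) := by
  induction n with
  | zero => rw [pow_zero, ← map_one (algebraMap (ZMod 5) C.place.Residue)]; exact .const 1
  | succ n ih => rw [pow_succ]; exact ih.mul h

theorem Curve.InK.inv {C : Curve x y} {s : C.place.Residue} (h : C.InK s) :
    C.InK s⁻¹ := by
  by_cases hs : s = 0
  · rw [hs, inv_zero, ← map_zero (algebraMap (ZMod 5) C.place.Residue)]; exact .const 0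
  obtain ⟨a, b, rfl⟩ := h
  have hab : a ≠ 0 ∨ b ≠ 0 := by
    by_contra hcon
    push Not at hcon
    apply hs
    rw [hcon.1, hcon.2, map_zero, zero_mul, add_zero]
  have hn : algebraMap (ZMod 5) C.place.Residue (a ^ 2 - 2 * b ^ 2) ≠ 0 := by
    rw [Ne, map_eq_zero]; exact anis a b hab
  have e : (algebraMap (ZMod 5) C.place.Residue a + algebraMap (ZMod 5) C.place.Residue b *
      C.rho)⁻¹ = algebraMap (ZMod 5) C.place.Residue (a ^ 2 - 2 * b ^ 2)⁻¹ *
        (algebraMap (ZMod 5) C.place.Residue a +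
          algebraMap (ZMod 5) C.place.Residue (-b) * C.rho) := by
    rw [map_inv₀]
    apply inv_eq_of_mul_eq_one_right
    rw [mul_left_comm, inv_mul_eq_one₀ hn]
    simp only [map_sub, map_pow, map_mul, map_ofNat, map_neg]
    linear_combination (algebraMap (ZMod 5) C.place.Residue b) ^ 2 * C.rho_sq
  rw [e]
  exact (Curve.InK.const _).mul ⟨a, -b, rfl⟩

theorem Curve.lin_eq_zero (C : Curve x y) {a b : ZMod 5}
    (h : algebraMap (ZMod 5) C.place.Residue a + algebraMap (ZMod 5) C.place.Residue b *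
      C.rho = 0) : a = 0 ∧ b = 0 := by
  by_contra hcon
  have hab : a ≠ 0 ∨ b ≠ 0 := by
    by_contra h2
    push Not at h2
    exact hcon h2
  have hn : algebraMap (ZMod 5) C.place.Residue (a ^ 2 - 2 * b ^ 2) ≠ 0 := by
    rw [Ne, map_eq_zero]; exact anis a b hab
  apply hn
  simp only [map_sub, map_pow, map_mul, map_ofNat]
  linear_combination (algebraMap (ZMod 5) C.place.Residue a -
    algebraMap (ZMod 5) C.place.Residue b * C.rho) * h -
    (-(algebraMap (ZMod 5) C.place.Residue b) ^ 2) * C.rho_sq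

theorem Curve.lin_inj (C : Curve x y) {a b c d : ZMod 5}
    (h : algebraMap (ZMod 5) C.place.Residue a + algebraMap (ZMod 5) C.place.Residue b *
      C.rho = algebraMap (ZMod 5) C.place.Residue c + algebraMap (ZMod 5) C.place.Residue d *
      C.rho) : a = c ∧ b = d := by
  have := C.lin_eq_zero (a := a - c) (b := b - d) (by
    simp only [map_sub]; linear_combination h)
  exact ⟨sub_eq_zero.mp this.1, sub_eq_zero.mp this.2⟩

theorem Curve.rs_lin (C : Curve x y) (a b : ZMod 5) :
    C.place.rs (algebraMap (ZMod 5) K a + algebraMap (ZMod 5) K b * (y / x)) =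
      algebraMap (ZMod 5) C.place.Residue a + algebraMap (ZMod 5) C.place.Residue b * C.rho := by
  have hr : C.place.val (y / x) ≤ 1 := C.vr.le
  have ha : C.place.val (algebraMap (ZMod 5) K a) ≤ 1 := val_const_le C.val a
  have hb : C.place.val (algebraMap (ZMod 5) K b) ≤ 1 := val_const_le C.val b
  rw [C.place.rs_add ha (by rw [map_mul]; exact mul_le_one' hb hr), C.place.rs_mul hb hr,
    C.place.rs_const, C.place.rs_const]
  rfl

end Pool.Agent.H552.Goss
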