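import Mathlib

/-! Definitions for the Goss zeta function of the ring of functions of a curve over a finite
field, regular away from one place. -/

namespace Pool.Agent.H552.Goss

open scoped WithZero

/-- `K` is a function field in one variable over `F` (a finite extension of a rational function
field `F(x)`), and `F` is the full constant field of `K`. -/
structure IsFunctionField (F K : Type) [Field F] [Field K] [Algebra F K] : Prop where
  exists_finite : ∃ x : K, Transcendental F x ∧
    FiniteDimensional (IntermediateField.adjoin F {x}) K
  full_constants : ∀ c : K, IsAlgebraic F c → c ∈ Set.range (algebraMap F K)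

/-- A place of `K` over `F`, given by its normalised discrete valuation `v`, which is trivial
on `F`; it is written multiplicatively, `val a = exp (- v a)` and `val 0 = 0`. -/
structure Place (F K : Type) [Field F] [Field K] [Algebra F K] where
  /-- the valuation -/
  val : Valuation K ℤᵐ⁰
  surj : Function.Surjective val
  triv : ∀ c : F, c ≠ 0 → val (algebraMap F K c) = 1

namespace Place

variable {F K : Type} [Field F] [Field K] [Algebra F K] (P : Place F K)

/-- The valuation ring of the place. -/
def ring : ValuationSubring K := P.val.valuationSubring

theorem mem_ring {z : K} : z ∈ P.ring ↔ P.val z ≤ 1 := Valuation.mem_valuationSubring_iff _ _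

theorem const_mem (c : F) : algebraMap F K c ∈ P.ring := by
  rw [mem_ring]
  by_cases hc : c = 0
  · rw [hc, map_zero, map_zero]; exact zero_le
  · exact (P.triv c hc).le

/-- The residue field of the place. -/
def Residue : Type := IsLocalRing.ResidueField P.ring

/-- The residue field is a field. -/
noncomputable instance : Field P.Residue := IsLocalRing.ResidueField.field P.ring

/-- The reduction map from the valuation ring to the residue field. -/
noncomputable def reduction : P.ring →+* P.Residue := IsLocalRing.residue P.ring

/-- The inclusion of the constants in the valuation ring. -/
def constants : F →+* P.ring := (algebraMap F K).codRestrict P.ring.toSubring P.const_mem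

/-- The residue field is an extension of the field of constants. -/
noncomputable instance : Algebra F P.Residue := (P.reduction.comp P.constants).toAlgebra

/-- The degree of the place. -/
noncomputable def degree : ℕ := Module.finrank F P.Residue

/-- The ring of all elements of `K` which are regular away from the place `P`: they lie in every
valuation ring `O` with `F ⊆ O ⊊ K` except possibly the valuation ring of `P`. -/
def ringA : Subring K where
  carrier := {a | ∀ O : ValuationSubring K, (∀ c : F, algebraMap F K c ∈ O) → O ≠ ⊤ →
    O ≠ P.ring → a ∈ O}
  mul_mem' ha hb O h1 h2 h3 := mul_mem (ha O h1 h2 h3) (hb O h1 h2 h3)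
  one_mem' O _ _ _ := one_mem O
  add_mem' ha hb O h1 h2 h3 := add_mem (ha O h1 h2 h3) (hb O h1 h2 h3)
  zero_mem' O _ _ _ := zero_mem O
  neg_mem' ha O h1 h2 h3 := neg_mem (ha O h1 h2 h3)

/-- The degree `deg a = - d v(a)` of a nonzero element, where `d` is the degree of the place. -/
noncomputable def deg (a : K) : ℤ := (P.degree : ℤ) * WithZero.log (P.val a)

/-- A sign function: a homomorphism from the multiplicative group of `K` to the one of the residue
field (extended by `0` at `0`), which on units of the valuation ring is the reduction map. (These
are exactly the restrictions to `K` of the sign functions on the completion of `K`, which they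
determine.) -/
structure SignFunction where
  /-- the homomorphism -/
  toHom : K →*₀ P.Residue
  unit : ∀ u : P.ring, IsUnit u → toHom u = P.reduction u

/-- `S` is a set of representatives of the multiplicative group of the residue field modulo the
one of the constant field. -/
def IsRepresentatives (S : Set P.Residue) : Prop :=
  0 ∉ S ∧ ∀ z : P.Residue, z ≠ 0 → ∃! s : P.Residue, s ∈ S ∧ ∃ c : F, z = c • s

/-- The set of positive elements of degree `i` in the ring `A`. -/
def Aplus (sgn : P.SignFunction) (S : Set P.Residue) (i : ℕ) : Set K :=
  {a | a ∈ P.ringA ∧ a ≠ 0 ∧ P.deg a = i ∧ sgn.toHom a ∈ S}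

/-- `z` is the value at `-k` of the Goss zeta function: all the sets of positive elements of given
degree are finite, and the sums over `i < n` of the `k`-th power sums over the positive elements
of degree `i` are equal to `z` for all large `n`. -/
def HasZetaValue (sgn : P.SignFunction) (S : Set P.Residue) (k : ℕ) (z : K) : Prop :=
  (∀ i, (P.Aplus sgn S i).Finite) ∧
    ∃ N, ∀ n ≥ N, ∑ i ∈ Finset.range n, ∑ᶠ a ∈ P.Aplus sgn S i, a ^ k = z

end Place

end Pool.Agent.H552.Goss
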