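import Pool.Agent.H552.GossZeta

/-! Existence of the curve. -/

namespace Pool.Agent.H552.Goss

open Polynomial

theorem exists_curve : ∃ (K : Type) (_ : Field K) (_ : Algebra (ZMod 5) K) (x y : K),
    Curve x y := by
  let E := AlgebraicClosure (RatFunc (ZMod 5))
  let x0 : E := algebraMap (RatFunc (ZMod 5)) E RatFunc.X
  let P : E[X] := (X ^ 5 - X) ^ 2 + C (3 * (x0 ^ 5 - x0) ^ 2 - 1)
  have hP : P.degree ≠ 0 := by
    have h1 : ((X ^ 5 - X : E[X])).degree = 5 := by compute_degree!
    have h2 : ((X ^ 5 - X : E[X]) ^ 2).degree = 10 := by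
      rw [degree_pow, h1]; norm_num
    have h3 : P.degree = 10 := by
      simp only [P]
      rw [degree_add_C (by rw [h2]; norm_num), h2]
    rw [h3]; norm_num
  obtain ⟨y0, hy0⟩ := IsAlgClosed.exists_root P hP
  have hcurve : (y0 ^ 5 - y0) ^ 2 + 3 * (x0 ^ 5 - x0) ^ 2 = 1 := by
    have : eval y0 P = 0 := hy0
    simp only [P, eval_add, eval_pow, eval_sub, eval_X, eval_C] at this
    linear_combination this
  let K0 : IntermediateField (ZMod 5) E := IntermediateField.adjoin (ZMod 5) {x0, y0}
  have hx : x0 ∈ K0 := IntermediateField.subset_adjoin _ _ (by simp)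
  have hy : y0 ∈ K0 := IntermediateField.subset_adjoin _ _ (by simp)
  refine ⟨K0, inferInstance, inferInstance, ⟨x0, hx⟩, ⟨y0, hy⟩, ?_, ?_, ?_⟩
  · exact Subtype.ext hcurve
  · have h1 : Transcendental (ZMod 5) (RatFunc.X : RatFunc (ZMod 5)) := RatFunc.transcendental_X
    have h2 : Transcendental (ZMod 5) x0 :=
      (transcendental_algebraMap_iff (algebraMap (RatFunc (ZMod 5)) E).injective).mpr h1
    exact (transcendental_algebraMap_iff (A := E) (algebraMap K0 E).injective).mp h2
  · apply IntermediateField.lift_injective K0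
    rw [IntermediateField.lift_adjoin, IntermediateField.lift_top]
    congr 1
    rw [Set.image_pair]

end Pool.Agent.H552.Goss
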