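import Pool.Agent.H552.GossVal

/-! The weight filtration of the ring generated by `x` and `y`. -/

namespace Pool.Agent.H552.Goss

variable {K : Type} [Field K] [Algebra (ZMod 5) K]

/-- Span of the monomials of weight at most `n`. -/
def W (x y : K) (n : ℕ) : Submodule (ZMod 5) K :=
  Submodule.span (ZMod 5) {z | ∃ m c e : ℕ, c ≤ 4 ∧ e ≤ 1 ∧ 5 * (m + e) + 6 * c ≤ n ∧
    z = x ^ m * (y ^ 2 - 2 * x ^ 2) ^ c * y ^ e}

/-- Span of the monomials of weight exactly `n`. -/
def M (x y : K) (n : ℕ) : Submodule (ZMod 5) K :=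
  Submodule.span (ZMod 5) {z | ∃ m c e : ℕ, c ≤ 4 ∧ e ≤ 1 ∧ 5 * (m + e) + 6 * c = n ∧
    z = x ^ m * (y ^ 2 - 2 * x ^ 2) ^ c * y ^ e}

variable {x y : K}

theorem W_mono {n n' : ℕ} (h : n ≤ n') : W x y n ≤ W x y n' := by
  apply Submodule.span_mono
  rintro z ⟨m, c, e, h1, h2, h3, rfl⟩
  exact ⟨m, c, e, h1, h2, h3.trans h, rfl⟩

theorem W_succ (n : ℕ) : W x y (n + 1) ≤ W x y n ⊔ M x y (n + 1) := by
  rw [W, Submodule.span_le]
  rintro z ⟨m, c, e, h1, h2, h3, rfl⟩
  rcases Nat.lt_or_ge n (5 * (m + e) + 6 * c) with h | h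
  · apply Submodule.mem_sup_right
    exact Submodule.subset_span ⟨m, c, e, h1, h2, by omega, rfl⟩
  · apply Submodule.mem_sup_left
    exact Submodule.subset_span ⟨m, c, e, h1, h2, h, rfl⟩

theorem one_mem_W (n : ℕ) : (1 : K) ∈ W x y n :=
  Submodule.subset_span ⟨0, 0, 0, by simp, by simp, by simp, by simp⟩

theorem W_zero : W x y 0 = Submodule.span (ZMod 5) {1} := by
  apply le_antisymm
  · rw [W, Submodule.span_le]
    rintro z ⟨m, c, e, h1, h2, h3, rfl⟩
    have : m = 0 := by omega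
    have : c = 0 := by omega
    have : e = 0 := by omega
    subst_vars
    simp
  · rw [Submodule.span_le]
    rintro z rfl
    exact one_mem_W 0

theorem mem_W_zero {z : K} : z ∈ W x y 0 ↔ ∃ c : ZMod 5, z = algebraMap (ZMod 5) K c := by
  rw [W_zero, Submodule.mem_span_singleton]
  constructor
  · rintro ⟨c, rfl⟩
    exact ⟨c, by rw [Algebra.smul_def, mul_one]⟩
  · rintro ⟨c, rfl⟩
    exact ⟨c, by rw [Algebra.smul_def, mul_one]⟩

section Val

variable {Γ : Type*} [LinearOrderedCommGroupWithZero Γ] (V : Valuation K Γ)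

theorem val_M (hx : 1 < V x) (h : (y ^ 5 - y) ^ 2 + 3 * (x ^ 5 - x) ^ 2 = 1) {n : ℕ} {z : K}
    (hz : z ∈ M x y n) (hz0 : z ≠ 0) : V z = V ((y ^ 2 - 2 * x ^ 2) / x) ^ n := by
  set t := y ^ 2 - 2 * x ^ 2 with ht
  obtain ⟨hG, hxG, hyG, htG⟩ := exists_G V hx h ht
  set G := V (t / x)
  by_cases hex : ∃ m c : ℕ, c ≤ 4 ∧ 5 * m + 6 * c = n
  · obtain ⟨m, c, hc, hn⟩ := hex
    rcases Nat.eq_zero_or_pos m with hm | hm
    · -- the leading monomial is a power of `t`
      have hle : M x y n ≤ Submodule.span (ZMod 5) {t ^ c} := by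
        rw [M, Submodule.span_le]
        rintro w ⟨m', c', e', h1, h2, h3, rfl⟩
        have : c' = c := by omega
        have : m' = 0 := by omega
        have : e' = 0 := by omega
        subst_vars
        rw [pow_zero, pow_zero, one_mul, mul_one]
        exact Submodule.mem_span_singleton_self _
      obtain ⟨a, ha⟩ := Submodule.mem_span_singleton.mp (hle hz)
      have ha0 : a ≠ 0 := by
        rintro rfl
        apply hz0
        rw [← ha, zero_smul]
      rw [← ha, Algebra.smul_def, map_mul, val_const V a ha0, one_mul, map_pow, htG, ← pow_mul]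
      congr 1; omega
    · obtain ⟨m, rfl⟩ := Nat.exists_eq_add_of_le' hm
      have hle : M x y n ≤ Submodule.span (ZMod 5) {x ^ m * t ^ c * x, x ^ m * t ^ c * y} := by
        rw [M, Submodule.span_le]
        rintro w ⟨m', c', e', h1, h2, h3, rfl⟩
        have hc' : c' = c := by omega
        rcases Nat.eq_zero_or_pos e' with he | he
        · have hm' : m' = m + 1 := by omega
          subst hc' hm' he
          apply Submodule.subset_span
          left
          rw [pow_zero, mul_one, pow_succ, ht]; ring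
        · have he1 : e' = 1 := by omega
          have hm' : m' = m := by omega
          subst hc' hm' he1
          apply Submodule.subset_span
          right
          rw [pow_one]; rfl
      obtain ⟨a, b, hab⟩ := Submodule.mem_span_pair.mp (hle hz)
      have hab0 : a ≠ 0 ∨ b ≠ 0 := by
        by_contra hcon
        push Not at hcon
        apply hz0
        rw [← hab, hcon.1, hcon.2, zero_smul, zero_smul, add_zero]
      have e : z = x ^ m * t ^ c * (algebraMap (ZMod 5) K a * x + algebraMap (ZMod 5) K b * y) := by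
        rw [← hab, Algebra.smul_def, Algebra.smul_def]; ring
      rw [e, map_mul, val_lead V hx h a b hab0, map_mul, map_pow, map_pow, htG, hxG, ← pow_mul,
        ← pow_mul, ← pow_add, ← pow_add]
      congr 1; omega
  · exfalso
    apply hz0
    have hle : M x y n ≤ ⊥ := by
      rw [M, Submodule.span_le]
      rintro w ⟨m', c', e', h1, h2, h3, rfl⟩
      exact absurd ⟨m' + e', c', h1, h3⟩ hex
    simpa using hle hz

theorem val_W (hx : 1 < V x) (h : (y ^ 5 - y) ^ 2 + 3 * (x ^ 5 - x) ^ 2 = 1) (n : ℕ) :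
    ∀ z ∈ W x y n, z ≠ 0 → V z ≤ V ((y ^ 2 - 2 * x ^ 2) / x) ^ n ∧
      ∃ j ≤ n, z ∈ W x y j ∧ V z = V ((y ^ 2 - 2 * x ^ 2) / x) ^ j := by
  obtain ⟨hG, hxG, hyG, htG⟩ := exists_G V hx h rfl
  set G := V ((y ^ 2 - 2 * x ^ 2) / x)
  induction n with
  | zero =>
    intro z hz hz0
    obtain ⟨c, rfl⟩ := mem_W_zero.mp hz
    have hc : c ≠ 0 := by
      rintro rfl; exact hz0 (map_zero _)
    rw [val_const V c hc]
    exact ⟨by simp, 0, le_rfl, hz, by simp⟩
  | succ n ih =>
    intro z hz hz0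
    obtain ⟨w, hw, l, hl, rfl⟩ := Submodule.mem_sup.mp (W_succ n hz)
    have hlt : G ^ n < G ^ (n + 1) := pow_lt_pow_right₀ hG (Nat.lt_succ_self n)
    by_cases hl0 : l = 0
    · subst hl0
      rw [add_zero] at hz hz0 ⊢
      obtain ⟨h1, j, hj, h2, h3⟩ := ih w hw hz0
      exact ⟨h1.trans hlt.le, j, by omega, h2, h3⟩
    · have hVl : V l = G ^ (n + 1) := val_M V hx h hl hl0
      have hVw : V w < G ^ (n + 1) := by
        by_cases hw0 : w = 0
        · rw [hw0, map_zero]; exact pow_pos (lt_trans zero_lt_one hG) _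
        · exact (ih w hw hw0).1.trans_lt hlt
      have : V (w + l) = G ^ (n + 1) := by
        rw [Valuation.map_add_eq_of_lt_right, hVl]
        rwa [hVl]
      exact ⟨this.le, n + 1, le_rfl, hz, this⟩

end Val

/-- The weight of an element. -/
noncomputable def J (x y z : K) : ℕ := sInf {n | z ∈ W x y n}

theorem mem_W_J {z : K} {n : ℕ} (hz : z ∈ W x y n) : z ∈ W x y (J x y z) :=
  Nat.sInf_mem (s := {n | z ∈ W x y n}) ⟨n, hz⟩

theorem J_le {z : K} {n : ℕ} (hz : z ∈ W x y n) : J x y z ≤ n := Nat.sInf_le hz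

theorem val_eq_J {Γ : Type*} [LinearOrderedCommGroupWithZero Γ] (V : Valuation K Γ)
    (hx : 1 < V x) (h : (y ^ 5 - y) ^ 2 + 3 * (x ^ 5 - x) ^ 2 = 1) {n : ℕ} {z : K}
    (hz : z ∈ W x y n) (hz0 : z ≠ 0) : V z = V ((y ^ 2 - 2 * x ^ 2) / x) ^ J x y z := by
  obtain ⟨-, j, hj, h1, h2⟩ := val_W V hx h _ z (mem_W_J hz) hz0
  have : j = J x y z := le_antisymm hj (J_le h1)
  rw [h2, this]

section Union

/-- Span of all the monomials. -/
def U (x y : K) : Submodule (ZMod 5) K :=
  Submodule.span (ZMod 5) {z | ∃ m c e : ℕ, c ≤ 4 ∧ e ≤ 1 ∧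
    z = x ^ m * (y ^ 2 - 2 * x ^ 2) ^ c * y ^ e}

theorem mem_U_mono {m c e : ℕ} (hc : c ≤ 4) (he : e ≤ 1) :
    x ^ m * (y ^ 2 - 2 * x ^ 2) ^ c * y ^ e ∈ U x y :=
  Submodule.subset_span ⟨m, c, e, hc, he, rfl⟩

theorem x_mul_mem {z : K} (hz : z ∈ U x y) : x * z ∈ U x y := by
  induction hz using Submodule.span_induction with
  | mem z hz =>
    obtain ⟨m, c, e, h1, h2, rfl⟩ := hz
    have := mem_U_mono (x := x) (y := y) (m := m + 1) h1 h2
    convert! this using 1
    ring
  | zero => rw [mul_zero]; exact zero_mem _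
  | add a b _ _ ha hb => rw [mul_add]; exact add_mem ha hb
  | smul c a _ ha => rw [mul_smul_comm]; exact Submodule.smul_mem _ _ ha

theorem y_mul_mem (h : (y ^ 5 - y) ^ 2 + 3 * (x ^ 5 - x) ^ 2 = 1) {z : K} (hz : z ∈ U x y) :
    y * z ∈ U x y := by
  induction hz using Submodule.span_induction with
  | mem z hz =>
    obtain ⟨m, c, e, h1, h2, rfl⟩ := hz
    set t := y ^ 2 - 2 * x ^ 2 with ht
    have e0 : ∀ m c : ℕ, c ≤ 4 → x ^ m * t ^ c ∈ U x y := by
      intro m c hc
      have := mem_U_mono (x := x) (y := y) (m := m) (e := 0) hc (by norm_num)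
      rwa [pow_zero, mul_one] at this
    have sm : ∀ (c : ZMod 5) (a : K), a ∈ U x y → algebraMap (ZMod 5) K c * a ∈ U x y := by
      intro c a ha
      rw [← Algebra.smul_def]
      exact Submodule.smul_mem _ _ ha
    have sm2 : ∀ a : K, a ∈ U x y → 2 * a ∈ U x y := by
      intro a ha
      have := sm 2 a ha
      rwa [map_ofNat] at this
    rcases Nat.eq_zero_or_pos e with he | he
    · subst he
      have := mem_U_mono (x := x) (y := y) (m := m) (e := 1) h1 (by norm_num)
      convert! this using 1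
      ring
    · have he1 : e = 1 := by omega
      subst he1
      have e1 : y * (x ^ m * t ^ c * y ^ 1) = x ^ m * t ^ (c + 1) + 2 * (x ^ (m + 2) * t ^ c) := by
        rw [ht]; ring
      rw [e1]
      refine add_mem ?_ (sm2 _ (e0 _ _ h1))
      rcases Nat.lt_or_ge c 4 with hc | hc
      · exact e0 _ _ hc
      · have hc4 : c = 4 := by omega
        subst hc4
        have e2 : x ^ m * t ^ (4 + 1) = 2 * (x ^ (m + 6) * t ^ 0) + (2 * (x ^ m * t ^ 3) +
            2 * (x ^ (m + 2) * t ^ 2) - x ^ (m + 4) * t ^ 1 - x ^ m * t ^ 1 + x ^ m * t ^ 0) := by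
          have := id2 h ht
          rw [show 4 + 1 = 5 from rfl, this]; ring
        rw [e2]
        refine add_mem (sm2 _ (e0 _ _ (by norm_num))) (add_mem (sub_mem (sub_mem (add_mem
          (sm2 _ (e0 _ _ (by norm_num))) (sm2 _ (e0 _ _ (by norm_num))))
          (e0 _ _ (by norm_num))) (e0 _ _ (by norm_num))) (e0 _ _ (by norm_num)))
  | zero => rw [mul_zero]; exact zero_mem _
  | add a b _ _ ha hb => rw [mul_add]; exact add_mem ha hb
  | smul c a _ ha => rw [mul_smul_comm]; exact Submodule.smul_mem _ _ ha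

theorem mem_U_of_mem_adjoin (h : (y ^ 5 - y) ^ 2 + 3 * (x ^ 5 - x) ^ 2 = 1) {z : K}
    (hz : z ∈ Algebra.adjoin (ZMod 5) {x, y}) : z ∈ U x y := by
  have key : ∀ w ∈ Submonoid.closure ({x, y} : Set K), w ∈ U x y := by
    intro w hw
    induction hw using Submonoid.closure_induction_left with
    | one =>
      have := mem_U_mono (x := x) (y := y) (m := 0) (c := 0) (e := 0) (by norm_num) (by norm_num)
      simpa using this
    | mul_left a ha b hb ih =>
      rcases ha with rfl | rfl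
      · exact x_mul_mem ih
      · exact y_mul_mem h ih
  rw [← Subalgebra.mem_toSubmodule, Algebra.adjoin_eq_span] at hz
  exact (Submodule.span_le.mpr key) hz

theorem exists_mem_W {z : K} (hz : z ∈ U x y) : ∃ n, z ∈ W x y n := by
  induction hz using Submodule.span_induction with
  | mem z hz =>
    obtain ⟨m, c, e, h1, h2, rfl⟩ := hz
    exact ⟨5 * (m + e) + 6 * c, Submodule.subset_span ⟨m, c, e, h1, h2, le_rfl, rfl⟩⟩
  | zero => exact ⟨0, zero_mem _⟩
  | add a b _ _ ha hb =>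
    obtain ⟨n, hn⟩ := ha
    obtain ⟨n', hn'⟩ := hb
    exact ⟨max n n', add_mem (W_mono (le_max_left _ _) hn) (W_mono (le_max_right _ _) hn')⟩
  | smul c a _ ha =>
    obtain ⟨n, hn⟩ := ha
    exact ⟨n, Submodule.smul_mem _ _ hn⟩

theorem exists_mem_W_of_adjoin (h : (y ^ 5 - y) ^ 2 + 3 * (x ^ 5 - x) ^ 2 = 1) {z : K}
    (hz : z ∈ Algebra.adjoin (ZMod 5) {x, y}) : ∃ n, z ∈ W x y n :=
  exists_mem_W (mem_U_of_mem_adjoin h hz)

theorem W_le_adjoin (n : ℕ) :
    W x y n ≤ Subalgebra.toSubmodule (Algebra.adjoin (ZMod 5) {x, y}) := by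
  rw [W, Submodule.span_le]
  rintro z ⟨m, c, e, h1, h2, h3, rfl⟩
  have hx : x ∈ Algebra.adjoin (ZMod 5) {x, y} := Algebra.subset_adjoin (by simp)
  have hy : y ∈ Algebra.adjoin (ZMod 5) {x, y} := Algebra.subset_adjoin (by simp)
  have h2 : (2 : K) ∈ Algebra.adjoin (ZMod 5) {x, y} := by
    have := Subalgebra.algebraMap_mem (Algebra.adjoin (ZMod 5) {x, y}) 2
    rwa [map_ofNat] at this
  have : x ^ m * (y ^ 2 - 2 * x ^ 2) ^ c * y ^ e ∈ Algebra.adjoin (ZMod 5) {x, y} :=
    mul_mem (mul_mem (pow_mem hx _) (pow_mem (sub_mem (pow_mem hy _)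
      (mul_mem h2 (pow_mem hx _))) _)) (pow_mem hy _)
  exact this

end Union

section Small

theorem W_four {n : ℕ} (hn : n ≤ 4) : W x y n = W x y 0 := by
  apply le_antisymm _ (W_mono (Nat.zero_le _))
  rw [W, Submodule.span_le]
  rintro z ⟨m, c, e, h1, h2, h3, rfl⟩
  have : m = 0 := by omega
  have : c = 0 := by omega
  have : e = 0 := by omega
  subst_vars
  simpa using one_mem_W (x := x) (y := y) 0

theorem mem_W_five {z : K} : z ∈ W x y 5 ↔ ∃ a b c : ZMod 5,
    z = algebraMap (ZMod 5) K a * x + algebraMap (ZMod 5) K b * y + algebraMap (ZMod 5) K c := by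
  constructor
  · intro hz
    have hle : W x y 5 ≤ Submodule.span (ZMod 5) {x, y, 1} := by
      rw [W, Submodule.span_le]
      rintro z ⟨m, c, e, h1, h2, h3, rfl⟩
      have hc : c = 0 := by omega
      subst hc
      have : (m = 0 ∧ e = 0) ∨ (m = 1 ∧ e = 0) ∨ (m = 0 ∧ e = 1) := by omega
      rcases this with ⟨rfl, rfl⟩ | ⟨rfl, rfl⟩ | ⟨rfl, rfl⟩
      · apply Submodule.subset_span; simp
      · apply Submodule.subset_span; simp
      · apply Submodule.subset_span; simp
    obtain ⟨a, b, c, habc⟩ := Submodule.mem_span_triple.mp (hle hz)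
    refine ⟨a, b, c, ?_⟩
    rw [← habc, Algebra.smul_def, Algebra.smul_def, Algebra.smul_def, mul_one]
  · rintro ⟨a, b, c, rfl⟩
    rw [← Algebra.smul_def, ← Algebra.smul_def, Algebra.algebraMap_eq_smul_one]
    refine add_mem (add_mem (Submodule.smul_mem _ _ ?_) (Submodule.smul_mem _ _ ?_))
      (Submodule.smul_mem _ _ (one_mem_W 5))
    · exact Submodule.subset_span ⟨1, 0, 0, by simp, by simp, by simp, by simp⟩
    · exact Submodule.subset_span ⟨0, 0, 1, by simp, by simp, by simp, by simp⟩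

/-- The filtration pieces are finite. -/
theorem W_finite (n : ℕ) : (W x y n : Set K).Finite := by
  have hfin : ({z | ∃ m c e : ℕ, c ≤ 4 ∧ e ≤ 1 ∧ 5 * (m + e) + 6 * c ≤ n ∧
    z = x ^ m * (y ^ 2 - 2 * x ^ 2) ^ c * y ^ e} : Set K).Finite := by
    apply Set.Finite.subset (Set.Finite.image
      (fun p : ℕ × ℕ × ℕ => x ^ p.1 * (y ^ 2 - 2 * x ^ 2) ^ p.2.1 * y ^ p.2.2)
      (Set.toFinite ((Finset.range (n + 1) ×ˢ Finset.range 5 ×ˢ Finset.range 2 :
        Finset (ℕ × ℕ × ℕ)) : Set (ℕ × ℕ × ℕ))))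
    rintro z ⟨m, c, e, h1, h2, h3, rfl⟩
    refine ⟨(m, c, e), ?_, rfl⟩
    simp only [Finset.coe_product, Finset.coe_range, Set.mem_prod, Set.mem_Iio]
    omega
  have : Module.Finite (ZMod 5) (W x y n) := Module.Finite.span_of_finite _ hfin
  have : Finite (W x y n) := Module.finite_of_finite (ZMod 5)
  exact Set.toFinite _

end Small

end Pool.Agent.H552.Goss
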