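import Pool.Agent.H552.GossFilt

/-! The ring generated by `x` and `y` is integrally closed. -/

namespace Pool.Agent.H552.Goss

open Polynomial IntermediateField
open scoped IntermediateField.algebraAdjoinAdjoin

theorem closed_adjoin {F K : Type} [Field F] [Field K] [Algebra F K] {s : K}
    (hs : Transcendental F s) : IsIntegrallyClosed (Algebra.adjoin F {s}) :=
  IsIntegrallyClosed.of_equiv (Polynomial.algEquivOfTranscendental F s hs).toRingEquiv

/-- The derivative of an equation kills the conductor. -/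
theorem deriv_mul_mem {F K : Type} [Field F] [Field K] [Algebra F K] {s y : K}
    (hs : Transcendental F s) (hgen : IntermediateField.adjoin F {s, y} = ⊤)
    (P : (Algebra.adjoin F {s})[X]) (hP : P.Monic) (hPy : aeval y P = 0)
    (hder : aeval y (derivative P) ≠ 0) {z : K} (hz : IsIntegral (Algebra.adjoin F {s}) z) :
    aeval y (derivative P) * z ∈ Algebra.adjoin F {s, y} := by
  have hcl := closed_adjoin hs
  have hy : IsIntegral (Algebra.adjoin F {s}) y := ⟨P, hP, hPy⟩
  have hy0 : IsIntegral F⟮s⟯ y := hy.tower_top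
  obtain ⟨g, hg⟩ := minpoly.isIntegrallyClosed_dvd hy hPy
  have hder2 : aeval y (derivative P) = aeval y (derivative (minpoly (Algebra.adjoin F {s}) y)) *
      aeval y g := by
    conv_lhs => rw [hg]
    rw [derivative_mul, map_add, map_mul, map_mul, minpoly.aeval, zero_mul, add_zero]
  have hmin : minpoly F⟮s⟯ y = (minpoly (Algebra.adjoin F {s}) y).map
      (algebraMap (Algebra.adjoin F {s}) F⟮s⟯) := minpoly.isIntegrallyClosed_eq_field_fractions' _ hy
  have hm' : aeval y (derivative (minpoly F⟮s⟯ y)) =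
      aeval y (derivative (minpoly (Algebra.adjoin F {s}) y)) := by
    rw [hmin, derivative_map, aeval_map_algebraMap]
  have hne : aeval y (derivative (minpoly F⟮s⟯ y)) ≠ 0 := by
    rw [hm']; intro h0
    apply hder; rw [hder2, h0, zero_mul]
  have hsepy : IsSeparable F⟮s⟯ y := by
    have hirr := minpoly.irreducible hy0
    rw [IsSeparable, Polynomial.separable_iff_derivative_ne_zero hirr]
    intro h0; apply hne; rw [h0, map_zero]
  have htop : IntermediateField.adjoin F⟮s⟯ {y} = ⊤ := by
    rw [← IntermediateField.restrictScalars_eq_top_iff (K := F),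
      IntermediateField.adjoin_simple_adjoin_simple]
    exact hgen
  have hfin : FiniteDimensional F⟮s⟯ K := by
    have := IntermediateField.adjoin.finiteDimensional hy0
    rw [htop] at this
    exact (IntermediateField.topEquiv (F := F⟮s⟯) (E := K)).toLinearEquiv.finiteDimensional
  have hsep : Algebra.IsSeparable F⟮s⟯ K := by
    have := (IntermediateField.isSeparable_adjoin_simple_iff_isSeparable F⟮s⟯ K).mpr hsepy
    rw [htop] at this
    exact Algebra.IsSeparable.of_algHom _ _ (IntermediateField.topEquiv (F := F⟮s⟯)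
      (E := K)).symm.toAlgHom
  have htop' : Algebra.adjoin F⟮s⟯ {y} = ⊤ := by
    rw [← IntermediateField.adjoin_simple_toSubalgebra_of_isAlgebraic hy0.isAlgebraic, htop]
    rfl
  have hdual := traceForm_dualSubmodule_adjoin (Algebra.adjoin F {s}) F⟮s⟯ htop' hy
  have hzd : z ∈ (Algebra.traceForm F⟮s⟯ K).dualSubmodule
      (Subalgebra.toSubmodule (Algebra.adjoin (Algebra.adjoin F {s}) {y})) := by
    rw [LinearMap.BilinForm.mem_dualSubmodule]
    intro w hw
    have hw' : IsIntegral (Algebra.adjoin F {s}) w := by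
      have h1 := Algebra.adjoin_le (S := integralClosure (Algebra.adjoin F {s}) K)
        (s := {y}) (Set.singleton_subset_iff.mpr hy)
      exact h1 hw
    have h2 : IsIntegral (Algebra.adjoin F {s}) (Algebra.trace F⟮s⟯ K (z * w)) :=
      Algebra.isIntegral_trace (hz.mul hw')
    obtain ⟨r, hr⟩ := IsIntegrallyClosed.isIntegral_iff.mp h2
    rw [Algebra.traceForm_apply, ← hr]
    exact Submodule.mem_one.mpr ⟨r, rfl⟩
  rw [hdual] at hzd
  obtain ⟨w, hw, hwz⟩ := hzd
  have hw' : w ∈ Algebra.adjoin (Algebra.adjoin F {s}) {y} := hw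
  have hz2 : aeval y (derivative (minpoly F⟮s⟯ y)) * z = w := by
    have : z = (aeval y (derivative (minpoly F⟮s⟯ y)))⁻¹ * w := hwz.symm
    rw [this, mul_inv_cancel_left₀ hne]
  have hle : ∀ w ∈ Algebra.adjoin (Algebra.adjoin F {s}) {y}, w ∈ Algebra.adjoin F {s, y} := by
    intro w hw
    induction hw using Algebra.adjoin_induction with
    | mem w hw =>
      rcases hw with rfl
      exact Algebra.subset_adjoin (by simp)
    | algebraMap r =>
      have : (r : K) ∈ Algebra.adjoin F {s, y} :=
        Algebra.adjoin_mono (by simp) r.2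
      exact this
    | add a b _ _ ha hb => exact add_mem ha hb
    | mul a b _ _ ha hb => exact mul_mem ha hb
  have hgy : aeval y g ∈ Algebra.adjoin (Algebra.adjoin F {s}) {y} :=
    Polynomial.aeval_mem_adjoin_singleton _ _
  have : aeval y (derivative P) * z = aeval y g * w := by
    rw [hder2, ← hz2, hm']; ring
  rw [this]
  exact mul_mem (hle _ hgy) (hle _ hw')

theorem as_mul_mem {K : Type} [Field K] [Algebra (ZMod 5) K] {s w : K}
    (hs : Transcendental (ZMod 5) s) (hgen : IntermediateField.adjoin (ZMod 5) {s, w} = ⊤)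
    (b : Algebra.adjoin (ZMod 5) {s}) (hb : (w ^ 5 - w) ^ 2 = (b : K)) (hne : w ^ 5 - w ≠ 0)
    {z : K} (hz : IsIntegral (Algebra.adjoin (ZMod 5) {s}) z) :
    (w ^ 5 - w) * z ∈ Algebra.adjoin (ZMod 5) {s, w} := by
  have h5 := five_eq_zero K
  let P : (Algebra.adjoin (ZMod 5) {s})[X] := (X ^ 5 - X) ^ 2 - C b
  have hP : P.Monic := by
    have h1 : ((X ^ 5 - X : (Algebra.adjoin (ZMod 5) {s})[X])).Monic := by
      monicity!
    have h2 : ((X ^ 5 - X : (Algebra.adjoin (ZMod 5) {s})[X]) ^ 2).Monic := h1.pow 2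
    apply h2.sub_of_left
    apply lt_of_le_of_lt degree_C_le
    rw [degree_pow, show (X ^ 5 - X : (Algebra.adjoin (ZMod 5) {s})[X]).degree = 5 by compute_degree!]
    norm_num
  have hPw : aeval w P = 0 := by
    simp only [P, map_sub, map_pow, aeval_X, aeval_C]
    rw [hb]
    exact sub_self _
  have hd : aeval w (derivative P) = -2 * (w ^ 5 - w) := by
    have : derivative P = 2 * (X ^ 5 - X) * (5 * X ^ 4 - 1) := by
      simp only [P, derivative_sub, derivative_C, sub_zero, derivative_pow, derivative_X,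
        Nat.cast_ofNat, map_ofNat, mul_one]
      ring
    rw [this]
    simp only [map_mul, map_sub, map_pow, aeval_X, map_ofNat, map_one]
    linear_combination 2 * (w ^ 5 - w) * w ^ 4 * h5
  have h2ne : (2 : K) ≠ 0 := by
    intro h0
    have : (1 : K) = 0 := by linear_combination h5 - 2 * h0
    exact one_ne_zero this
  have hd0 : aeval w (derivative P) ≠ 0 := by
    rw [hd]; exact mul_ne_zero (neg_ne_zero.mpr h2ne) hne
  have key := deriv_mul_mem hs hgen P hP hPw hd0 hz
  rw [hd] at key
  have e : (w ^ 5 - w) * z = 2 * (-2 * (w ^ 5 - w) * z) := by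
    linear_combination (w ^ 5 - w) * z * h5
  rw [e]
  have h2 : (2 : K) ∈ Algebra.adjoin (ZMod 5) {s, w} := by
    have := Subalgebra.algebraMap_mem (Algebra.adjoin (ZMod 5) {s, w}) 2
    rwa [map_ofNat] at this
  exact mul_mem h2 key

/-- An element integral over both coordinate rings belongs to the ring of the curve. -/
theorem mem_of_integral {K : Type} [Field K] [Algebra (ZMod 5) K] {x y : K}
    (hx : Transcendental (ZMod 5) x) (hy : Transcendental (ZMod 5) y)
    (hgen : IntermediateField.adjoin (ZMod 5) {x, y} = ⊤)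
    (h : (y ^ 5 - y) ^ 2 + 3 * (x ^ 5 - x) ^ 2 = 1) {z : K}
    (hz1 : IsIntegral (Algebra.adjoin (ZMod 5) {x}) z)
    (hz2 : IsIntegral (Algebra.adjoin (ZMod 5) {y}) z) :
    z ∈ Algebra.adjoin (ZMod 5) {x, y} := by
  have h5 := five_eq_zero K
  have mem2 : ∀ A : Subalgebra (ZMod 5) K, (2 : K) ∈ A := by
    intro A
    have := Subalgebra.algebraMap_mem A 2
    rwa [map_ofNat] at this
  have tr : ∀ s : K, Transcendental (ZMod 5) s → s ^ 5 - s ≠ 0 := by
    intro s hs h0
    apply hs
    refine ⟨X ^ 5 - X, ?_, by simpa using h0⟩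
    have : (X ^ 5 - X : (ZMod 5)[X]).Monic := by monicity!
    exact this.ne_zero
  have hxm : x ∈ Algebra.adjoin (ZMod 5) {x} := Algebra.self_mem_adjoin_singleton _ _
  have hym : y ∈ Algebra.adjoin (ZMod 5) {y} := Algebra.self_mem_adjoin_singleton _ _
  have k1 : (y ^ 5 - y) * z ∈ Algebra.adjoin (ZMod 5) {x, y} := by
    refine as_mul_mem hx hgen ⟨1 + 2 * (x ^ 5 - x) ^ 2, ?_⟩ ?_ (tr y hy) hz1
    · exact add_mem (one_mem _) (mul_mem (mem2 _) (pow_mem (sub_mem (pow_mem hxm _) hxm) _))
    · linear_combination h - (x ^ 5 - x) ^ 2 * h5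
  have k2 : (x ^ 5 - x) * z ∈ Algebra.adjoin (ZMod 5) {y, x} := by
    refine as_mul_mem hy (by rw [Set.pair_comm]; exact hgen)
      ⟨2 - 2 * (y ^ 5 - y) ^ 2, ?_⟩ ?_ (tr x hx) hz2
    · exact sub_mem (mem2 _) (mul_mem (mem2 _) (pow_mem (sub_mem (pow_mem hym _) hym) _))
    · linear_combination 2 * h - (x ^ 5 - x) ^ 2 * h5
  rw [Set.pair_comm] at k2
  have hxm : x ∈ Algebra.adjoin (ZMod 5) {x, y} := Algebra.subset_adjoin (by simp)
  have hym : y ∈ Algebra.adjoin (ZMod 5) {x, y} := Algebra.subset_adjoin (by simp)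
  have e : z = (y ^ 5 - y) * ((y ^ 5 - y) * z) -
      2 * ((x ^ 5 - x) * ((x ^ 5 - x) * z)) := by
    linear_combination -z * h + (x ^ 5 - x) ^ 2 * z * h5
  rw [e]
  exact sub_mem (mul_mem (sub_mem (pow_mem hym _) hym) k1)
    (mul_mem (mem2 _) (mul_mem (sub_mem (pow_mem hxm _) hxm) k2))

/-- An element in all valuation rings containing `s` is integral over the ring of `s`. -/
theorem integral_of_valuations {F K : Type} [Field F] [Field K] [Algebra F K] {s z : K}
    (hz : ∀ O : ValuationSubring K, (∀ c : F, algebraMap F K c ∈ O) → s ∈ O → z ∈ O) :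
    IsIntegral (Algebra.adjoin F {s}) z := by
  have key := iInf_valuationSubring_superset (s := (Algebra.adjoin F {s} : Set K))
  have hz' : z ∈ (⨅ V : {V : ValuationSubring K //
      (Algebra.adjoin F {s} : Set K) ⊆ V.toSubring}, V.1.toSubring) := by
    rw [Subring.mem_iInf]
    rintro ⟨O, hO⟩
    exact hz O (fun c => hO (Subalgebra.algebraMap_mem _ c))
      (hO (Algebra.self_mem_adjoin_singleton _ _))
  rw [key] at hz'
  have e : Subring.closure (Algebra.adjoin F {s} : Set K) = (Algebra.adjoin F {s}).toSubring :=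
    Subring.closure_eq (Algebra.adjoin F {s}).toSubring
  rw [e] at hz'
  exact hz'

/-- There is a valuation ring not containing a given transcendental element. -/
theorem exists_pole {F K : Type} [Field F] [Field K] [Algebra F K] {s : K}
    (hs : Transcendental F s) :
    ∃ O : ValuationSubring K, (∀ c : F, algebraMap F K c ∈ O) ∧ s ∉ O := by
  by_contra hcon
  push Not at hcon
  have h1 : IsIntegral (Algebra.adjoin F {(0 : K)}) s :=
    integral_of_valuations (F := F) (fun O hO _ => hcon O hO)
  have h2 : Algebra.IsIntegral F (Algebra.adjoin F {(0 : K)}) := by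
    apply Algebra.IsIntegral.adjoin
    rintro x rfl
    exact isIntegral_zero
  exact hs (isIntegral_trans (R := F) s h1).isAlgebraic

end Pool.Agent.H552.Goss
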