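import Pool.Agent.H552.GossNormal
import Pool.Agent.H552.GossDefs

/-! The place at infinity of the curve. -/

namespace Pool.Agent.H552.Goss

open scoped WithZero

variable {K : Type} [Field K] [Algebra (ZMod 5) K] {x y : K}

/-- The hypotheses on the two coordinate functions. -/
structure Curve (x y : K) : Prop where
  eq : (y ^ 5 - y) ^ 2 + 3 * (x ^ 5 - x) ^ 2 = 1
  trans : Transcendental (ZMod 5) x
  gen : IntermediateField.adjoin (ZMod 5) {x, y} = ⊤

theorem Curve.exists_ord (C : Curve x y) (z : K) : ∃ n : ℤ, z ≠ 0 →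
    ∀ (Γ : Type) [LinearOrderedCommGroupWithZero Γ] (V : Valuation K Γ), 1 < V x →
      V z = V ((y ^ 2 - 2 * x ^ 2) / x) ^ n := by
  have hz : z ∈ IntermediateField.adjoin (ZMod 5) {x, y} := by rw [C.gen]; trivial
  obtain ⟨a, ha, b, hb, rfl⟩ := IntermediateField.mem_adjoin_iff_div.mp hz
  refine ⟨(J x y a : ℤ) - J x y b, ?_⟩
  intro h0 Γ _ V hV
  obtain ⟨n, hn⟩ := exists_mem_W_of_adjoin C.eq ha
  obtain ⟨m, hm⟩ := exists_mem_W_of_adjoin C.eq hb
  have ha0 : a ≠ 0 := by rintro rfl; exact h0 (zero_div _)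
  have hb0 : b ≠ 0 := by rintro rfl; exact h0 (div_zero _)
  obtain ⟨hG, -, -, -⟩ := exists_G V hV C.eq rfl
  rw [map_div₀, val_eq_J V hV C.eq hn ha0, val_eq_J V hV C.eq hm hb0,
    zpow_sub₀ (lt_trans zero_lt_one hG).ne', zpow_natCast, zpow_natCast]

/-- The order function. -/
noncomputable def Curve.ord (C : Curve x y) (z : K) : ℤ := (C.exists_ord z).choose

theorem Curve.val_eq (C : Curve x y) {z : K} (hz : z ≠ 0) {Γ : Type}
    [LinearOrderedCommGroupWithZero Γ] (V : Valuation K Γ) (hV : 1 < V x) :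
    V z = V ((y ^ 2 - 2 * x ^ 2) / x) ^ C.ord z :=
  (C.exists_ord z).choose_spec hz Γ V hV

theorem Curve.exists_V (C : Curve x y) : ∃ (Γ : Type) (_ : LinearOrderedCommGroupWithZero Γ)
    (V : Valuation K Γ), 1 < V x := by
  obtain ⟨O, hO, hx⟩ := exists_pole C.trans
  refine ⟨O.ValueGroup, inferInstance, O.valuation, ?_⟩
  rw [← not_le]
  rwa [ValuationSubring.valuation_le_one_iff]

theorem Curve.x_ne (C : Curve x y) : x ≠ 0 := by
  rintro rfl
  exact C.trans isAlgebraic_zero

theorem Curve.ord_mul (C : Curve x y) {z w : K} (hz : z ≠ 0) (hw : w ≠ 0) :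
    C.ord (z * w) = C.ord z + C.ord w := by
  obtain ⟨Γ, _, V, hV⟩ := C.exists_V
  obtain ⟨hG, -, -, -⟩ := exists_G V hV C.eq rfl
  have h := map_mul V z w
  rw [C.val_eq hz V hV, C.val_eq hw V hV, C.val_eq (mul_ne_zero hz hw) V hV,
    ← zpow_add₀ (lt_trans zero_lt_one hG).ne'] at h
  exact (zpow_right_injective₀ (lt_trans zero_lt_one hG) hG.ne') h

theorem Curve.ord_one (C : Curve x y) : C.ord 1 = 0 := by
  have := C.ord_mul (one_ne_zero (α := K)) one_ne_zero
  rw [mul_one] at this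
  omega

theorem Curve.ord_add (C : Curve x y) {z w : K} (hz : z ≠ 0) (hw : w ≠ 0) (hzw : z + w ≠ 0) :
    C.ord (z + w) ≤ max (C.ord z) (C.ord w) := by
  obtain ⟨Γ, _, V, hV⟩ := C.exists_V
  obtain ⟨hG, -, -, -⟩ := exists_G V hV C.eq rfl
  have h := V.map_add z w
  rw [C.val_eq hz V hV, C.val_eq hw V hV, C.val_eq hzw V hV] at h
  rcases le_max_iff.mp h with h | h
  · exact le_max_of_le_left ((zpow_le_zpow_iff_right₀ hG).mp h)
  · exact le_max_of_le_right ((zpow_le_zpow_iff_right₀ hG).mp h)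

open scoped Classical in
/-- The normalised valuation at infinity. -/
noncomputable def Curve.val (C : Curve x y) : Valuation K ℤᵐ⁰ where
  toFun z := if z = 0 then 0 else WithZero.exp (C.ord z)
  map_zero' := by simp
  map_one' := by simp [C.ord_one]
  map_mul' z w := by
    by_cases hz : z = 0
    · simp [hz]
    by_cases hw : w = 0
    · simp [hw]
    simp only [hz, hw, mul_eq_zero, or_self, if_false]
    rw [C.ord_mul hz hw, WithZero.exp_add]
  map_add_le_max' z w := by
    by_cases hz : z = 0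
    · simp [hz]
    by_cases hw : w = 0
    · simp [hw]
    by_cases hzw : z + w = 0
    · simp [hzw]
    simp only [hz, hw, hzw, if_false]
    rw [le_max_iff, WithZero.exp_le_exp, WithZero.exp_le_exp, ← le_max_iff]
    exact C.ord_add hz hw hzw

open scoped Classical in
theorem Curve.val_ne (C : Curve x y) {z : K} (hz : z ≠ 0) : C.val z = WithZero.exp (C.ord z) := by
  have : C.val z = if z = 0 then 0 else WithZero.exp (C.ord z) := rfl
  rw [this, if_neg hz]

theorem Curve.t_ne (C : Curve x y) : y ^ 2 - 2 * x ^ 2 ≠ 0 := by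
  obtain ⟨Γ, _, V, hV⟩ := C.exists_V
  obtain ⟨hG, -, -, -⟩ := exists_G V hV C.eq rfl
  intro h0
  rw [h0, zero_div, map_zero] at hG
  exact absurd hG (not_lt.mpr zero_le)

theorem Curve.ord_pi (C : Curve x y) : C.ord ((y ^ 2 - 2 * x ^ 2) / x) = 1 := by
  obtain ⟨Γ, _, V, hV⟩ := C.exists_V
  obtain ⟨hG, -, -, -⟩ := exists_G V hV C.eq rfl
  have h := C.val_eq (div_ne_zero C.t_ne C.x_ne) V hV
  have h2 : V ((y ^ 2 - 2 * x ^ 2) / x) ^ (1 : ℤ) =
    V ((y ^ 2 - 2 * x ^ 2) / x) ^ C.ord ((y ^ 2 - 2 * x ^ 2) / x) := by rw [zpow_one]; exact h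
  exact ((zpow_right_injective₀ (lt_trans zero_lt_one hG) hG.ne') h2).symm

theorem Curve.val_pi (C : Curve x y) : C.val ((y ^ 2 - 2 * x ^ 2) / x) = WithZero.exp 1 := by
  rw [C.val_ne (div_ne_zero C.t_ne C.x_ne), C.ord_pi]

/-- Comparison with an arbitrary valuation having a pole at `x`. -/
theorem Curve.val_le_one_iff (C : Curve x y) (z : K) {Γ : Type}
    [LinearOrderedCommGroupWithZero Γ] (V : Valuation K Γ) (hV : 1 < V x) :
    V z ≤ 1 ↔ C.val z ≤ 1 := by
  by_cases hz : z = 0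
  · simp [hz]
  obtain ⟨hG, -, -, -⟩ := exists_G V hV C.eq rfl
  rw [C.val_eq hz V hV, C.val_ne hz, ← zpow_zero (V ((y ^ 2 - 2 * x ^ 2) / x)),
    zpow_le_zpow_iff_right₀ hG, ← WithZero.exp_zero, WithZero.exp_le_exp]

theorem Curve.one_lt_val_x (C : Curve x y) : 1 < C.val x := by
  obtain ⟨Γ, _, V, hV⟩ := C.exists_V
  by_contra hc
  have := (C.val_le_one_iff x V hV).mpr (not_lt.mp hc)
  exact absurd hV (not_lt.mpr this)

/-- The place at infinity. -/
noncomputable def Curve.place (C : Curve x y) : Place (ZMod 5) K where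
  val := C.val
  surj := by
    intro g
    by_cases hg : g = 0
    · exact ⟨0, by rw [map_zero, hg]⟩
    · refine ⟨((y ^ 2 - 2 * x ^ 2) / x) ^ (WithZero.log g), ?_⟩
      rw [map_zpow₀, C.val_pi, ← WithZero.exp_zsmul, smul_eq_mul, mul_one, WithZero.exp_log hg]
  triv := fun c hc => val_const C.val c hc

/-- Any valuation ring not containing `x` is the valuation ring at infinity. -/
theorem Curve.unique (C : Curve x y) (O : ValuationSubring K) (hO : x ∉ O) :
    O = C.place.ring := by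
  ext z
  rw [Place.mem_ring, ← ValuationSubring.valuation_le_one_iff]
  apply C.val_le_one_iff
  rw [← not_le]
  rwa [ValuationSubring.valuation_le_one_iff]

end Pool.Agent.H552.Goss
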