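import Pool.Agent.H552.GossPlace

/-! The ring of functions regular away from infinity, and the field of constants. -/

namespace Pool.Agent.H552.Goss

open scoped WithZero
open Polynomial

variable {K : Type} [Field K] [Algebra (ZMod 5) K] {x y : K}

theorem Curve.trans_y (C : Curve x y) : Transcendental (ZMod 5) y := by
  have h5 := five_eq_zero K
  intro hy
  apply C.trans
  have h1 : IsAlgebraic (ZMod 5) (aeval x ((X ^ 5 - X) ^ 2 : (ZMod 5)[X])) := by
    have e : aeval x ((X ^ 5 - X) ^ 2 : (ZMod 5)[X]) =
        algebraMap (ZMod 5) K 2 - algebraMap (ZMod 5) K 2 * (y ^ 5 - y) ^ 2 := by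
      simp only [map_pow, map_sub, aeval_X, map_ofNat]
      linear_combination 2 * C.eq - (x ^ 5 - x) ^ 2 * h5
    rw [e]
    exact (isAlgebraic_algebraMap _).sub ((isAlgebraic_algebraMap _).mul
      (((hy.pow 5).sub hy).pow 2))
  have hm : ((X ^ 5 - X) ^ 2 : (ZMod 5)[X]).Monic := by
    have : ((X ^ 5 - X : (ZMod 5)[X])).Monic := by monicity!
    exact this.pow 2
  refine IsAlgebraic.of_aeval _ ?_ ?_ h1
  · have : ((X ^ 5 - X : (ZMod 5)[X])).natDegree = 5 := by compute_degree!
    rw [natDegree_pow, this]; norm_num
  · rw [hm.leadingCoeff]; exact one_mem _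

theorem Curve.val_J (C : Curve x y) {z : K} (hz : z ∈ Algebra.adjoin (ZMod 5) {x, y})
    (hz0 : z ≠ 0) : C.val z = WithZero.exp (J x y z : ℤ) := by
  obtain ⟨n, hn⟩ := exists_mem_W_of_adjoin C.eq hz
  rw [val_eq_J C.val C.one_lt_val_x C.eq hn hz0, C.val_pi, ← WithZero.exp_nsmul]
  simp

theorem Curve.mem_W_iff (C : Curve x y) {z : K} (hz : z ∈ Algebra.adjoin (ZMod 5) {x, y})
    (hz0 : z ≠ 0) (n : ℕ) : z ∈ W x y n ↔ C.val z ≤ WithZero.exp (n : ℤ) := by
  rw [C.val_J hz hz0, WithZero.exp_le_exp]
  constructor
  · intro h; exact_mod_cast J_le h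
  · intro h
    obtain ⟨m, hm⟩ := exists_mem_W_of_adjoin C.eq hz
    exact W_mono (by exact_mod_cast h) (mem_W_J hm)

theorem Curve.functionField (C : Curve x y) : IsFunctionField (ZMod 5) K where
  exists_finite := by
    refine ⟨x, C.trans, ?_⟩
    have hy0 : IsIntegral (IntermediateField.adjoin (ZMod 5) {x}) y := by
      have h5 := five_eq_zero K
      let g := IntermediateField.AdjoinSimple.gen (ZMod 5) x
      have hg : (algebraMap (IntermediateField.adjoin (ZMod 5) {x}) K g) = x := rfl
      refine ⟨(X ^ 5 - X) ^ 2 - Polynomial.C (1 + 2 * (g ^ 5 - g) ^ 2), ?_, ?_⟩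
      · have h1 : ((X ^ 5 - X : (IntermediateField.adjoin (ZMod 5) {x})[X])).Monic := by
          monicity!
        apply (h1.pow 2).sub_of_left
        apply lt_of_le_of_lt degree_C_le
        rw [degree_pow, show (X ^ 5 - X : (IntermediateField.adjoin (ZMod 5) {x})[X]).degree = 5
          by compute_degree!]
        norm_num
      · rw [← aeval_def]
        simp only [map_sub, map_pow, aeval_X, aeval_C, map_add, map_mul, map_one, map_ofNat, hg]
        linear_combination C.eq - (x ^ 5 - x) ^ 2 * h5
    have htop : IntermediateField.adjoin (IntermediateField.adjoin (ZMod 5) {x}) {y} = ⊤ := by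
      rw [← IntermediateField.restrictScalars_eq_top_iff (K := ZMod 5),
        IntermediateField.adjoin_simple_adjoin_simple]
      exact C.gen
    have := IntermediateField.adjoin.finiteDimensional hy0
    rw [htop] at this
    exact (IntermediateField.topEquiv (F := IntermediateField.adjoin (ZMod 5) {x})
      (E := K)).toLinearEquiv.finiteDimensional
  full_constants := by
    intro c hc
    by_cases hc0 : c = 0
    · exact ⟨0, by rw [map_zero, hc0]⟩
    have key : ∀ c : K, IsAlgebraic (ZMod 5) c → c ∈ Algebra.adjoin (ZMod 5) {x, y} := by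
      intro c hc
      exact mem_of_integral C.trans C.trans_y C.gen C.eq hc.isIntegral.tower_top
        hc.isIntegral.tower_top
    have h1 := key c hc
    have h2 := key c⁻¹ hc.inv
    have h3 : C.val c * C.val c⁻¹ = 1 := by
      rw [← map_mul, mul_inv_cancel₀ hc0, map_one]
    rw [C.val_J h1 hc0, C.val_J h2 (inv_ne_zero hc0), ← WithZero.exp_add, ← WithZero.exp_zero,
      WithZero.exp_inj] at h3
    have h4 : J x y c = 0 := by omega
    obtain ⟨m, hm⟩ := exists_mem_W_of_adjoin C.eq h1
    have h5 := mem_W_J hm
    rw [h4] at h5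
    obtain ⟨a, ha⟩ := mem_W_zero.mp h5
    exact ⟨a, ha.symm⟩

theorem Curve.x_mem_iff (C : Curve x y) (O : ValuationSubring K) : x ∈ O ↔ y ∈ O := by
  have h5 := five_eq_zero K
  rw [← ValuationSubring.valuation_le_one_iff, ← ValuationSubring.valuation_le_one_iff]
  set V := O.valuation
  constructor
  · intro hx
    by_contra hy
    have hy := not_le.mp hy
    have h1 := val_u V hy
    have h2 : V (y ^ 5 - y) ^ 2 ≤ 1 := by
      have e : (y ^ 5 - y) ^ 2 = 1 + 2 * (x ^ 5 - x) ^ 2 := by
        linear_combination C.eq - (x ^ 5 - x) ^ 2 * h5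
      rw [← map_pow, e]
      apply V.map_add_le
      · rw [map_one]
      · rw [map_mul, val_two, one_mul, map_pow]
        apply pow_le_one₀ zero_le
        apply V.map_sub_le
        · rw [map_pow]; exact pow_le_one₀ zero_le hx
        · exact hx
    rw [h1, ← pow_mul] at h2
    exact absurd (one_lt_pow₀ hy (by norm_num)) (not_lt.mpr h2)
  · intro hy
    by_contra hx
    have hx := not_le.mp hx
    rw [val_y V hx C.eq] at hy
    exact absurd hx (not_lt.mpr hy)

theorem Curve.x_not_mem (C : Curve x y) : x ∉ C.place.ring := by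
  rw [Place.mem_ring, not_le]
  exact C.one_lt_val_x

theorem Curve.mem_ringA (C : Curve x y) {z : K} :
    z ∈ C.place.ringA ↔ z ∈ Algebra.adjoin (ZMod 5) {x, y} := by
  constructor
  · intro hz
    apply mem_of_integral C.trans C.trans_y C.gen C.eq
    · apply integral_of_valuations
      intro O hO hx
      by_cases ht : O = ⊤
      · rw [ht]; trivial
      · refine hz O hO ht ?_
        rintro rfl
        exact C.x_not_mem hx
    · apply integral_of_valuations
      intro O hO hy
      have hx := (C.x_mem_iff O).mpr hy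
      by_cases ht : O = ⊤
      · rw [ht]; trivial
      · refine hz O hO ht ?_
        rintro rfl
        exact C.x_not_mem hx
  · intro hz O hO h1 h2
    have hx : x ∈ O := by
      by_contra hx
      exact h2 (C.unique O hx)
    have hy : y ∈ O := (C.x_mem_iff O).mp hx
    induction hz using Algebra.adjoin_induction with
    | mem w hw =>
      rcases hw with rfl | rfl
      · exact hx
      · exact hy
    | algebraMap r => exact hO r
    | add a b _ _ ha hb => exact add_mem ha hb
    | mul a b _ _ ha hb => exact mul_mem ha hb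

end Pool.Agent.H552.Goss
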