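import Pool.Agent.H552.GossCurveRes

/-! The residue field at infinity has degree two; signs of the elements of degree ten. -/

namespace Pool.Agent.H552.Goss

open scoped WithZero

variable {K : Type} [Field K] [Algebra (ZMod 5) K] {x y : K}

theorem Curve.val_W_le (C : Curve x y) {n : ℕ} {z : K} (hz : z ∈ W x y n) :
    C.val z ≤ WithZero.exp (n : ℤ) := by
  by_cases hz0 : z = 0
  · rw [hz0, map_zero]; exact zero_le
  · exact (C.mem_W_iff (W_le_adjoin n hz) hz0 n).mp hz

theorem Curve.val_W_mul (C : Curve x y) {n : ℕ} {z : K} (hz : z ∈ W x y n) :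
    C.val (z * varpi x y ^ n) ≤ 1 := by
  rw [map_mul, C.v_varpi_pow]
  calc C.val z * WithZero.exp (-(n : ℤ)) ≤ WithZero.exp (n : ℤ) * WithZero.exp (-(n : ℤ)) :=
        mul_le_mul_left (C.val_W_le hz) _
    _ = 1 := by rw [← WithZero.exp_add]; simp

theorem Curve.res_M (C : Curve x y) {n : ℕ} {l : K} (hl : l ∈ M x y n) :
    C.InK (C.place.rs (l * varpi x y ^ n)) := by
  set t := y ^ 2 - 2 * x ^ 2 with ht
  have hk : C.place.val (kap x y) ≤ 1 := C.v_kap.le
  have hr : C.place.val (y / x) ≤ 1 := C.vr.le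
  have rk : C.InK (C.place.rs (kap x y)) := by
    rw [C.rs_kap]
    have := Curve.InK.const (C := C) 3
    rwa [map_ofNat] at this
  -- each monomial
  have key : ∀ m c e : ℕ, e ≤ 1 → 5 * (m + e) + 6 * c = n →
      C.place.val (x ^ m * t ^ c * y ^ e * varpi x y ^ n) ≤ 1 ∧
      C.InK (C.place.rs (x ^ m * t ^ c * y ^ e * varpi x y ^ n)) := by
    intro m c e he hn
    have e1 : x ^ m * t ^ c * y ^ e * varpi x y ^ n = kap x y ^ (m + c + e) * (y / x) ^ e := by
      have h1 : y ^ e = x ^ e * (y / x) ^ e := by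
        rw [← mul_pow, mul_div_cancel₀ _ C.x_ne]
      have h2 : kap x y ^ (m + c + e) = (x * varpi x y ^ 5) ^ (m + e) *
          (t * varpi x y ^ 6) ^ c := by
        rw [ht, ← C.kap_eq, ← kap, ← pow_add]
        congr 1; omega
      rw [h1, h2, ← hn]
      ring_nf
    rw [e1]
    have l1 : C.place.val (kap x y ^ (m + c + e)) ≤ 1 := by
      rw [map_pow]; exact pow_le_one₀ zero_le hk
    have l2 : C.place.val ((y / x) ^ e) ≤ 1 := by
      rw [map_pow]; exact pow_le_one₀ zero_le hr
    refine ⟨by rw [map_mul]; exact mul_le_one' l1 l2, ?_⟩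
    rw [C.place.rs_mul l1 l2, C.place.rs_pow hk, C.place.rs_pow hr]
    refine (rk.pow _).mul (Curve.InK.pow ?_ _)
    exact ⟨0, 1, by rw [map_zero, map_one, zero_add, one_mul]; rfl⟩
  have key2 : C.place.val (l * varpi x y ^ n) ≤ 1 ∧ C.InK (C.place.rs (l * varpi x y ^ n)) := by
    induction hl using Submodule.span_induction with
    | mem z hz =>
      obtain ⟨m, c, e, h1, h2, h3, rfl⟩ := hz
      exact key m c e h2 h3
    | zero =>
      rw [zero_mul, map_zero]
      refine ⟨zero_le, ?_⟩
      rw [(C.place.rs_eq_zero_iff (by rw [map_zero]; exact zero_le)).mpr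
        (by rw [map_zero]; exact zero_lt_one), ← map_zero (algebraMap (ZMod 5) C.place.Residue)]
      exact .const 0
    | add a b _ _ ha hb =>
      rw [add_mul, C.place.rs_add ha.1 hb.1]
      exact ⟨C.place.val.map_add_le ha.1 hb.1, ha.2.add hb.2⟩
    | smul c a _ ha =>
      have hc : C.place.val (algebraMap (ZMod 5) K c) ≤ 1 := val_const_le C.val c
      rw [Algebra.smul_def, mul_assoc, C.place.rs_mul hc ha.1, C.place.rs_const]
      exact ⟨by rw [map_mul]; exact mul_le_one' hc ha.1, (Curve.InK.const c).mul ha.2⟩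
  exact key2.2

theorem Curve.M_le_W (n : ℕ) : M x y n ≤ W x y n := by
  apply Submodule.span_mono
  rintro z ⟨m, c, e, h1, h2, h3, rfl⟩
  exact ⟨m, c, e, h1, h2, h3.le, rfl⟩

theorem Curve.res_W (C : Curve x y) (n : ℕ) : ∀ z ∈ W x y n,
    C.InK (C.place.rs (z * varpi x y ^ n)) := by
  induction n with
  | zero =>
    intro z hz
    obtain ⟨c, rfl⟩ := mem_W_zero.mp hz
    rw [pow_zero, mul_one, C.place.rs_const]
    exact .const c
  | succ n ih =>
    intro z hz
    obtain ⟨w, hw, l, hl, rfl⟩ := Submodule.mem_sup.mp (W_succ n hz)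
    have h1 : C.place.val (w * varpi x y ^ n) ≤ 1 := C.val_W_mul hw
    have h2 : C.place.val (varpi x y) < 1 := by
      change C.val _ < 1
      rw [C.v_varpi, ← WithZero.exp_zero, WithZero.exp_lt_exp]
      norm_num
    have h3 : C.place.val (l * varpi x y ^ (n + 1)) ≤ 1 := C.val_W_mul (Curve.M_le_W _ hl)
    have h4 : C.place.val (w * varpi x y ^ (n + 1)) ≤ 1 := C.val_W_mul (W_mono (Nat.le_succ n) hw)
    rw [add_mul, C.place.rs_add h4 h3, pow_succ, ← mul_assoc, C.place.rs_mul h1 h2.le,
      (C.place.rs_eq_zero_iff h2.le).mpr h2, mul_zero, zero_add, ← pow_succ]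
    exact C.res_M hl

/-- Every residue is of the form `α + β ρ`. -/
theorem Curve.inK (C : Curve x y) (s : C.place.Residue) : C.InK s := by
  obtain ⟨z, hz, rfl⟩ := C.place.exists_rs s
  rcases hz.lt_or_eq with hlt | heq
  · rw [(C.place.rs_eq_zero_iff hz).mpr hlt, ← map_zero (algebraMap (ZMod 5) C.place.Residue)]
    exact .const 0
  have hz' : z ∈ IntermediateField.adjoin (ZMod 5) {x, y} := by rw [C.gen]; trivial
  obtain ⟨a, ha, b, hb, rfl⟩ := IntermediateField.mem_adjoin_iff_div.mp hz'
  have hne : a / b ≠ 0 := by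
    intro h0; rw [h0, map_zero] at heq; exact zero_ne_one heq
  have ha0 : a ≠ 0 := by rintro rfl; exact hne (zero_div _)
  have hb0 : b ≠ 0 := by rintro rfl; exact hne (div_zero _)
  have hval : C.val a = C.val b := by
    have : C.val (a / b) = 1 := heq
    rw [map_div₀] at this
    exact (div_eq_one_iff_eq ((map_ne_zero _).mpr hb0)).mp this
  obtain ⟨n, hn⟩ := exists_mem_W_of_adjoin C.eq hb
  have hbn := mem_W_J hn
  set j := J x y b with hj
  have hvb : C.val b = WithZero.exp (j : ℤ) := C.val_J hb hb0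
  have haj : a ∈ W x y j := (C.mem_W_iff ha ha0 j).mpr (by rw [hval, hvb])
  have h1 : C.place.val (b * varpi x y ^ j) = 1 := by
    change C.val _ = 1
    rw [map_mul, hvb, C.v_varpi_pow, ← WithZero.exp_add]; simp
  have h2 : C.place.val (a / b) ≤ 1 := hz
  have e : (a / b) * (b * varpi x y ^ j) = a * varpi x y ^ j := by
    field_simp
  have h3 := C.place.rs_mul h2 h1.le
  rw [e] at h3
  have h4 := C.place.rs_ne_zero h1
  have h5 : C.place.rs (a / b) = C.place.rs (a * varpi x y ^ j) *
      (C.place.rs (b * varpi x y ^ j))⁻¹ := by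
    rw [h3, mul_inv_cancel_right₀ h4]
  rw [h5]
  exact (C.res_W j a haj).mul (C.res_W j b hbn).inv

theorem Curve.degree_eq (C : Curve x y) : C.place.degree = 2 := by
  let f : (ZMod 5 × ZMod 5) →ₗ[ZMod 5] C.place.Residue :=
    { toFun := fun p => algebraMap (ZMod 5) _ p.1 + algebraMap (ZMod 5) _ p.2 * C.rho
      map_add' := by
        intro p q
        rw [Prod.fst_add, Prod.snd_add, map_add, map_add]
        ring
      map_smul' := by
        intro c p
        rw [Prod.smul_fst, Prod.smul_snd, smul_eq_mul, smul_eq_mul, map_mul, map_mul,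
          RingHom.id_apply, Algebra.smul_def]
        ring }
  have hf : Function.Bijective f := by
    constructor
    · rintro ⟨a, b⟩ ⟨c, d⟩ h
      have := C.lin_inj h
      exact Prod.ext this.1 this.2
    · intro s
      obtain ⟨a, b, h⟩ := C.inK s
      exact ⟨(a, b), h.symm⟩
  have := (LinearEquiv.ofBijective f hf).finrank_eq
  rw [Place.degree, ← this]
  simp

end Pool.Agent.H552.Goss
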