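import Pool.Agent.H552.GossSign

/-! The power sums. -/

namespace Pool.Agent.H552.Goss

open scoped WithZero

variable {K : Type} [Field K] [Algebra (ZMod 5) K] {x y : K}

theorem sum_zmod5 {N : Type} [AddCommMonoid N] (f : ZMod 5 → N) :
    ∑ c : ZMod 5, f c = f 0 + (f 1 + (f 2 + (f 3 + f 4))) := by
  have : (Finset.univ : Finset (ZMod 5)) = {0, 1, 2, 3, 4} := by decide
  rw [this, Finset.sum_insert (by decide), Finset.sum_insert (by decide),
    Finset.sum_insert (by decide), Finset.sum_insert (by decide), Finset.sum_singleton]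

theorem P14 (X : K) : ∑ c : ZMod 5, (X + algebraMap (ZMod 5) K c) ^ 14 = -(X ^ 5 - X) ^ 2 := by
  have h5 := five_eq_zero K
  rw [sum_zmod5]
  simp only [map_zero, map_one, map_ofNat]
  linear_combination (X ^ 14 + 28 * X ^ 13 + 546 * X ^ 12 + 7280 * X ^ 11 + 70871 * X ^ 10 +
    520520 * X ^ 9 + 2936934 * X ^ 8 + 12835680 * X ^ 7 + 43455812 * X ^ 6 +
    113048936 * X ^ 5 + 221951730 * X ^ 4 + 318390800 * X ^ 3 + 315092123 * X ^ 2 +
    192391864 * X + 54646962) * h5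

theorem alg_pow5 (a : ZMod 5) : algebraMap (ZMod 5) K a ^ 5 = algebraMap (ZMod 5) K a := by
  rw [← map_pow]
  congr 1
  revert a; decide

theorem add_pow5 (X Y : K) : (X + Y) ^ 5 = X ^ 5 + Y ^ 5 := by
  have h5 := five_eq_zero K
  linear_combination (X ^ 4 * Y + 2 * X ^ 3 * Y ^ 2 + 2 * X ^ 2 * Y ^ 3 + X * Y ^ 4) * h5

/-- The double power sum vanishes. -/
theorem P14_double (X x : K) : ∑ d : ZMod 5, ∑ c : ZMod 5,
    (X + algebraMap (ZMod 5) K d * x + algebraMap (ZMod 5) K c) ^ 14 = 0 := by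
  have h5 := five_eq_zero K
  simp only [P14]
  have e : ∀ d : ZMod 5, (X + algebraMap (ZMod 5) K d * x) ^ 5 -
      (X + algebraMap (ZMod 5) K d * x) =
      (X ^ 5 - X) + algebraMap (ZMod 5) K d * (x ^ 5 - x) := by
    intro d
    rw [add_pow5, mul_pow, alg_pow5]; ring
  simp only [e]
  rw [sum_zmod5]
  simp only [map_zero, map_one, map_ofNat]
  linear_combination -((X ^ 5 - X) ^ 2 + 4 * (X ^ 5 - X) * (x ^ 5 - x) +
    6 * (x ^ 5 - x) ^ 2) * h5

/-- Representatives of the six classes. -/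
def T : Finset (ZMod 5 × ZMod 5) := {(2, 0), (0, 1), (1, 1), (1, 2), (1, 3), (1, 4)}

/-- The sum over the positive elements of degree ten. -/
theorem sum_T (h : (y ^ 5 - y) ^ 2 + 3 * (x ^ 5 - x) ^ 2 = 1) :
    ∑ p ∈ T, ∑ c : ZMod 5, (algebraMap (ZMod 5) K p.1 * x + algebraMap (ZMod 5) K p.2 * y +
      algebraMap (ZMod 5) K c) ^ 14 = -1 := by
  have h5 := five_eq_zero K
  simp only [P14]
  have e : ∀ p : ZMod 5 × ZMod 5, (algebraMap (ZMod 5) K p.1 * x +
      algebraMap (ZMod 5) K p.2 * y) ^ 5 -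
      (algebraMap (ZMod 5) K p.1 * x + algebraMap (ZMod 5) K p.2 * y) =
      algebraMap (ZMod 5) K p.1 * (x ^ 5 - x) + algebraMap (ZMod 5) K p.2 * (y ^ 5 - y) := by
    intro p
    rw [add_pow5, mul_pow, alg_pow5, mul_pow, alg_pow5]; ring
  simp only [e]
  rw [T, Finset.sum_insert (by decide), Finset.sum_insert (by decide),
    Finset.sum_insert (by decide), Finset.sum_insert (by decide), Finset.sum_insert (by decide),
    Finset.sum_singleton]
  simp only [map_zero, map_one, map_ofNat]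
  linear_combination -h - ((x ^ 5 - x) ^ 2 + 4 * (x ^ 5 - x) * (y ^ 5 - y) +
    6 * (y ^ 5 - y) ^ 2) * h5

theorem Curve.pv_varpi (C : Curve x y) : C.place.val (varpi x y) = WithZero.exp (-1) :=
  C.v_varpi

/-- The sign function. -/
noncomputable def Curve.sgn (C : Curve x y) : C.place.SignFunction :=
  C.place.signOf (varpi x y) C.pv_varpi

/-- The set of representatives. -/
def Curve.S (C : Curve x y) : Set C.place.Residue :=
  {s | ∃ p ∈ T, s = 3 * (algebraMap (ZMod 5) _ p.1 +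
    algebraMap (ZMod 5) _ p.2 * C.rho)}

theorem T_exists : ∀ a b : ZMod 5, (a ≠ 0 ∨ b ≠ 0) → ∃ c : ZMod 5, c ≠ 0 ∧ ∃ p ∈ T,
    a = c * (3 * p.1) ∧ b = c * (3 * p.2) := by decide

theorem T_unique : ∀ c d : ZMod 5, c ≠ 0 → d ≠ 0 → ∀ p ∈ T, ∀ q ∈ T,
    c * (3 * p.1) = d * (3 * q.1) → c * (3 * p.2) = d * (3 * q.2) → p = q := by decide

theorem T_nz : ∀ p ∈ T, ¬ (3 * p.1 = 0 ∧ 3 * p.2 = 0) := by decide

theorem Curve.isRep (C : Curve x y) : C.place.IsRepresentatives C.S := by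
  have e3 : (algebraMap (ZMod 5) C.place.Residue 3) = 3 := map_ofNat _ 3
  refine ⟨?_, ?_⟩
  · rintro ⟨p, hp, h⟩
    have := C.lin_eq_zero (a := 3 * p.1) (b := 3 * p.2) (by
      rw [map_mul, map_mul, e3]; linear_combination -h)
    exact T_nz p hp this
  intro z hz
  obtain ⟨a, b, hab⟩ := C.inK z
  have hab0 : a ≠ 0 ∨ b ≠ 0 := by
    by_contra hcon
    push Not at hcon
    apply hz
    rw [hab, hcon.1, hcon.2, map_zero, zero_mul, add_zero]
  obtain ⟨c, hc, p, hp, ha, hb⟩ := T_exists a b hab0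
  refine ⟨3 * (algebraMap (ZMod 5) C.place.Residue p.1 +
    algebraMap (ZMod 5) C.place.Residue p.2 * C.rho), ⟨⟨p, hp, rfl⟩, c, ?_⟩, ?_⟩
  · rw [Algebra.smul_def, hab, ha, hb, map_mul, map_mul, map_mul, map_mul, e3]
    ring
  · rintro s ⟨⟨q, hq, hs⟩, d, hd⟩
    rw [Algebra.smul_def] at hd
    have hd0 : d ≠ 0 := by
      rintro rfl
      apply hz
      rw [hd, map_zero, zero_mul]
    rw [hs]
    have h2 := C.lin_inj (a := c * (3 * p.1)) (b := c * (3 * p.2))
      (c := d * (3 * q.1)) (d := d * (3 * q.2)) (by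
        rw [← ha, ← hb, ← hab, hd, hs, map_mul, map_mul, map_mul, map_mul, e3]
        ring)
    rw [T_unique c d hc hd0 p hp q hq h2.1 h2.2]

end Pool.Agent.H552.Goss
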