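import Mathlib

/-! Valuations of the curve `(y^5 - y)^2 + 3 (x^5 - x)^2 = 1` over the field with five
elements, at the place where `x` has a pole. -/

namespace Pool.Agent.H552.Goss

instance fact5 : Fact (Nat.Prime 5) := ⟨by norm_num⟩

section Val

variable {K : Type} [Field K] [Algebra (ZMod 5) K]

theorem five_eq_zero (K : Type) [Field K] [Algebra (ZMod 5) K] : (5 : K) = 0 := by
  have h : algebraMap (ZMod 5) K 5 = 0 := by
    have : (5 : ZMod 5) = 0 := by decide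
    rw [this, map_zero]
  rwa [map_ofNat] at h

variable {Γ : Type*} [LinearOrderedCommGroupWithZero Γ]

theorem pow_inj' {a b : Γ} (n : ℕ) (hn : n ≠ 0) (h : a ^ n = b ^ n) : a = b :=
  (pow_left_inj₀ zero_le zero_le hn).mp h

variable (V : Valuation K Γ)

theorem val_const (c : ZMod 5) (hc : c ≠ 0) : V (algebraMap (ZMod 5) K c) = 1 := by
  have h1 : c ^ 4 = 1 := by
    have := ZMod.pow_card_sub_one_eq_one hc
    simpa using this
  have h2 : V (algebraMap (ZMod 5) K c) ^ 4 = 1 := by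
    rw [← map_pow, ← map_pow, h1, map_one, map_one]
  exact pow_inj' 4 (by norm_num) (by rw [h2, one_pow])

theorem val_const_le (c : ZMod 5) : V (algebraMap (ZMod 5) K c) ≤ 1 := by
  by_cases hc : c = 0
  · rw [hc, map_zero, map_zero]; exact zero_le
  · exact (val_const V c hc).le

theorem val_two : V (2 : K) = 1 := by
  have h := val_const (K := K) V 2 (by decide)
  rwa [map_ofNat] at h

variable {x y : K}

theorem val_u (hx : 1 < V x) : V (x ^ 5 - x) = V x ^ 5 := by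
  have h : V x < V (x ^ 5) := by
    rw [map_pow]
    calc V x = V x ^ 1 := (pow_one _).symm
      _ < V x ^ 5 := pow_lt_pow_right₀ hx (by norm_num)
  rw [Valuation.map_sub_eq_of_lt_left V h, map_pow]

theorem val_y (hx : 1 < V x) (h : (y ^ 5 - y) ^ 2 + 3 * (x ^ 5 - x) ^ 2 = 1) : V y = V x := by
  have h5 := five_eq_zero K
  have hu := val_u V hx
  have hu1 : 1 < V (x ^ 5 - x) := by
    rw [hu]; exact one_lt_pow₀ hx (by norm_num)
  have e : (y ^ 5 - y) ^ 2 = 1 + 2 * (x ^ 5 - x) ^ 2 := by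
    linear_combination h - (x ^ 5 - x) ^ 2 * h5
  have hv2 : V (y ^ 5 - y) ^ 2 = V (x ^ 5 - x) ^ 2 := by
    rw [← map_pow, e]
    have h2 : V (2 * (x ^ 5 - x) ^ 2) = V (x ^ 5 - x) ^ 2 := by
      rw [map_mul, val_two, one_mul, map_pow]
    rw [← h2]
    apply Valuation.map_add_eq_of_lt_right
    rw [map_one, h2]
    exact one_lt_pow₀ hu1 (by norm_num)
  have hv : V (y ^ 5 - y) = V (x ^ 5 - x) := pow_inj' 2 (by norm_num) hv2
  have hy : 1 < V y := by
    by_contra hc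
    have hc := not_lt.mp hc
    have : V (y ^ 5 - y) ≤ 1 := by
      apply Valuation.map_sub_le
      · rw [map_pow]; exact pow_le_one₀ zero_le hc
      · exact hc
    rw [hv] at this
    exact absurd hu1 (not_lt.mpr this)
  have hvy := val_u V hy
  apply pow_inj' 5 (by norm_num)
  rw [← hvy, ← hu, hv]

theorem id1 (h : (y ^ 5 - y) ^ 2 + 3 * (x ^ 5 - x) ^ 2 = 1) :
    (y ^ 2 - 2 * x ^ 2) ^ 5 =
      1 + 2 * y ^ 6 - 2 * y ^ 2 + x ^ 6 - x ^ 2 + (y ^ 2 - 2 * x ^ 2) := by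
  have h5 := five_eq_zero K
  linear_combination h + (-2 * x ^ 2 * y ^ 8 + 8 * x ^ 4 * y ^ 6 - 16 * x ^ 6 * y ^ 4 +
    16 * x ^ 8 * y ^ 2 - 7 * x ^ 10 + x^6) * h5

theorem id2 (h : (y ^ 5 - y) ^ 2 + 3 * (x ^ 5 - x) ^ 2 = 1) {t : K} (ht : t = y ^ 2 - 2 * x ^ 2) :
    t ^ 5 = 2 * x ^ 6 + (2 * t ^ 3 + 2 * (x ^ 2 * t ^ 2) - x ^ 4 * t - t + 1) := by
  have h5 := five_eq_zero K
  rw [ht]
  linear_combination h + (-7 * x ^ 10 + 16 * x ^ 8 * y ^ 2 - 16 * x ^ 6 * y ^ 4 + 2 * x ^ 6 +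
    8 * x ^ 4 * y ^ 6 - 3 * x ^ 4 * y ^ 2 - 2 * x ^ 2 * y ^ 8 + 2 * x ^ 2 * y ^ 4 - x ^ 2) * h5

theorem val_t_lt (hx : 1 < V x) (h : (y ^ 5 - y) ^ 2 + 3 * (x ^ 5 - x) ^ 2 = 1) {t : K}
    (ht : t = y ^ 2 - 2 * x ^ 2) : V t < V x ^ 2 := by
  have hy := val_y V hx h
  have h2 := val_two (K := K) V
  have ht2 : V t ≤ V x ^ 2 := by
    rw [ht]
    apply Valuation.map_sub_le
    · rw [map_pow, hy]
    · rw [map_mul, h2, one_mul, map_pow]
  have l26 : V x ^ 2 ≤ V x ^ 6 := pow_le_pow_right₀ hx.le (by norm_num)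
  have l06 : 1 ≤ V x ^ 6 := one_le_pow₀ hx.le
  have h6 : V t ^ 5 ≤ V x ^ 6 := by
    rw [← map_pow]
    have e := id1 h
    rw [← ht] at e
    rw [e]
    refine V.map_add_le (V.map_sub_le (V.map_add_le (V.map_sub_le (V.map_add_le ?_ ?_) ?_) ?_) ?_) ?_
    · rw [map_one]; exact l06
    · rw [map_mul, h2, one_mul, map_pow, hy]
    · rw [map_mul, h2, one_mul, map_pow, hy]; exact l26
    · rw [map_pow]
    · rw [map_pow]; exact l26
    · exact ht2.trans l26
  by_contra hc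
  have hc := not_lt.mp hc
  have h10 : V x ^ 10 ≤ V t ^ 5 := by
    calc V x ^ 10 = (V x ^ 2) ^ 5 := by rw [← pow_mul]
      _ ≤ V t ^ 5 := pow_le_pow_left₀ zero_le hc 5
  have : V x ^ 6 < V x ^ 10 := pow_lt_pow_right₀ hx (by norm_num)
  exact absurd (h10.trans h6) (not_le.mpr this)

theorem val_bracket (hx : 1 < V x) (h : (y ^ 5 - y) ^ 2 + 3 * (x ^ 5 - x) ^ 2 = 1) {t : K}
    (ht : t = y ^ 2 - 2 * x ^ 2) :
    V (2 * t ^ 3 + 2 * (x ^ 2 * t ^ 2) - x ^ 4 * t - t + 1) < V x ^ 6 := by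
  have h2 := val_two (K := K) V
  have l := val_t_lt V hx h ht
  have x0 : 0 < V x := lt_trans zero_lt_one hx
  have l26 : V x ^ 2 ≤ V x ^ 6 := pow_le_pow_right₀ hx.le (by norm_num)
  have l06 : 1 < V x ^ 6 := one_lt_pow₀ hx (by norm_num)
  have e1 : V x ^ 6 = (V x ^ 2) ^ 3 := by rw [← pow_mul]
  have e2 : V x ^ 6 = V x ^ 2 * (V x ^ 2) ^ 2 := by rw [← pow_mul, ← pow_add]
  have e3 : V x ^ 6 = V x ^ 4 * V x ^ 2 := by rw [← pow_add]
  rw [sub_eq_add_neg, sub_eq_add_neg]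
  refine V.map_add_lt (V.map_add_lt (V.map_add_lt (V.map_add_lt ?_ ?_) ?_) ?_) ?_
  · rw [map_mul, h2, one_mul, map_pow, e1]
    exact pow_lt_pow_left₀ l zero_le (by norm_num)
  · rw [map_mul, h2, one_mul, map_mul, map_pow, map_pow, e2]
    exact mul_lt_mul_of_pos_left (pow_lt_pow_left₀ l zero_le (by norm_num)) (pow_pos x0 2)
  · rw [Valuation.map_neg, map_mul, map_pow, e3]
    exact mul_lt_mul_of_pos_left l (pow_pos x0 4)
  · rw [Valuation.map_neg]; exact l.trans_le l26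
  · rw [map_one]; exact l06

theorem val_t5 (hx : 1 < V x) (h : (y ^ 5 - y) ^ 2 + 3 * (x ^ 5 - x) ^ 2 = 1) {t : K}
    (ht : t = y ^ 2 - 2 * x ^ 2) : V t ^ 5 = V x ^ 6 := by
  have h2 := val_two (K := K) V
  have e : V (2 * x ^ 6) = V x ^ 6 := by rw [map_mul, h2, one_mul, map_pow]
  rw [← map_pow, id2 h ht, Valuation.map_add_eq_of_lt_left, e]
  rw [e]
  exact val_bracket V hx h ht

/-- The value of `t / x`. -/
theorem exists_G (hx : 1 < V x) (h : (y ^ 5 - y) ^ 2 + 3 * (x ^ 5 - x) ^ 2 = 1) {t : K}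
    (ht : t = y ^ 2 - 2 * x ^ 2) :
    1 < V (t / x) ∧ V x = V (t / x) ^ 5 ∧ V y = V (t / x) ^ 5 ∧ V t = V (t / x) ^ 6 := by
  have x0 : V x ≠ 0 := (lt_trans zero_lt_one hx).ne'
  have h5 : V (t / x) ^ 5 = V x := by
    rw [map_div₀, div_pow, val_t5 V hx h ht, div_eq_iff (pow_ne_zero _ x0), ← pow_succ']
  have h6 : V t = V (t / x) ^ 6 := by
    rw [pow_succ, h5, map_div₀, mul_div_cancel₀ _ x0]
  refine ⟨?_, h5.symm, (val_y V hx h).trans h5.symm, h6⟩
  by_contra hc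
  have hc := not_lt.mp hc
  have := pow_le_one₀ (n := 5) zero_le hc
  rw [h5] at this
  exact absurd hx (not_lt.mpr this)

theorem anis (a b : ZMod 5) (h : a ≠ 0 ∨ b ≠ 0) : a ^ 2 - 2 * b ^ 2 ≠ 0 := by
  revert a b; decide

/-- The leading forms have the expected value. -/
theorem val_lead (hx : 1 < V x) (h : (y ^ 5 - y) ^ 2 + 3 * (x ^ 5 - x) ^ 2 = 1)
    (a b : ZMod 5) (hab : a ≠ 0 ∨ b ≠ 0) :
    V (algebraMap (ZMod 5) K a * x + algebraMap (ZMod 5) K b * y) = V x := by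
  have x0 : 0 < V x := lt_trans zero_lt_one hx
  have hy := val_y V hx h
  set α := algebraMap (ZMod 5) K a
  set β := algebraMap (ZMod 5) K b
  have la : V (α * x) ≤ V x := by
    rw [map_mul]; exact mul_le_of_le_one_left' (val_const_le V a)
  have lb : V (β * y) ≤ V x := by
    rw [map_mul, hy]; exact mul_le_of_le_one_left' (val_const_le V b)
  have l1 : V (α * x + β * y) ≤ V x := V.map_add_le la lb
  have l2 : V (α * x - β * y) ≤ V x := V.map_sub_le la lb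
  have e : (α * x + β * y) * (α * x - β * y) =
      algebraMap (ZMod 5) K (a ^ 2 - 2 * b ^ 2) * x ^ 2 - β ^ 2 * (y ^ 2 - 2 * x ^ 2) := by
    simp only [map_sub, map_pow, map_mul, map_ofNat, α, β]
    ring
  have hp : V (α * x + β * y) * V (α * x - β * y) = V x * V x := by
    have e1 : V (algebraMap (ZMod 5) K (a ^ 2 - 2 * b ^ 2) * x ^ 2) = V x ^ 2 := by
      rw [map_mul, val_const V _ (anis a b hab), one_mul, map_pow]
    rw [← map_mul, e, ← pow_two (V x), ← e1]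
    apply Valuation.map_sub_eq_of_lt_left
    rw [e1, map_mul, map_pow]
    refine lt_of_le_of_lt ?_ (val_t_lt V hx h rfl)
    exact mul_le_of_le_one_left' (pow_le_one₀ zero_le (val_const_le V b))
  by_contra hc
  have hlt : V (α * x + β * y) < V x := lt_of_le_of_ne l1 hc
  have : V (α * x + β * y) * V (α * x - β * y) < V x * V x :=
    calc V (α * x + β * y) * V (α * x - β * y) ≤ V (α * x + β * y) * V x :=
          mul_le_mul_right l2 _
      _ < V x * V x := mul_lt_mul_of_pos_right hlt x0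
  exact absurd hp this.ne

end Val

end Pool.Agent.H552.Goss
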