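import Pool.Agent.H552.GossSum

/-! The value at `-14` of the Goss zeta function of the curve. -/

namespace Pool.Agent.H552.Goss

open scoped WithZero

variable {K : Type} [Field K] [Algebra (ZMod 5) K] {x y : K}

/-- `a x + b y + c`. -/
def lin (x y : K) (a b c : ZMod 5) : K :=
  algebraMap (ZMod 5) K a * x + algebraMap (ZMod 5) K b * y + algebraMap (ZMod 5) K c

theorem Curve.val_lin (C : Curve x y) {a b : ZMod 5} (c : ZMod 5) (hab : a ≠ 0 ∨ b ≠ 0) :
    C.val (lin x y a b c) = WithZero.exp 5 := by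
  rw [lin, Valuation.map_add_eq_of_lt_left, val_lead C.val C.one_lt_val_x C.eq a b hab, C.vx]
  rw [val_lead C.val C.one_lt_val_x C.eq a b hab]
  exact (val_const_le C.val c).trans_lt C.one_lt_val_x

theorem Curve.lin_ne (C : Curve x y) {a b : ZMod 5} (c : ZMod 5) (hab : a ≠ 0 ∨ b ≠ 0) :
    lin x y a b c ≠ 0 := by
  intro h0
  have := C.val_lin c hab
  rw [h0, map_zero] at this
  exact WithZero.exp_ne_zero this.symm

theorem Curve.lin_indep (C : Curve x y) {a b c : ZMod 5} (h : lin x y a b c = 0) :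
    a = 0 ∧ b = 0 ∧ c = 0 := by
  have hab : a = 0 ∧ b = 0 := by
    by_contra hcon
    exact C.lin_ne c (by rw [not_and_or] at hcon; exact hcon) h
  refine ⟨hab.1, hab.2, ?_⟩
  rw [lin, hab.1, hab.2, map_zero, zero_mul, zero_mul, zero_add, zero_add, map_eq_zero] at h
  exact h

theorem Curve.lin_inj' (C : Curve x y) {a b c a' b' c' : ZMod 5}
    (h : lin x y a b c = lin x y a' b' c') : a = a' ∧ b = b' ∧ c = c' := by
  have := C.lin_indep (a := a - a') (b := b - b') (c := c - c') (by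
    simp only [lin, map_sub] at h ⊢; linear_combination h)
  exact ⟨sub_eq_zero.mp this.1, sub_eq_zero.mp this.2.1, sub_eq_zero.mp this.2.2⟩

theorem lin_mem (a b c : ZMod 5) : lin x y a b c ∈ Algebra.adjoin (ZMod 5) {x, y} :=
  W_le_adjoin 5 (mem_W_five.mpr ⟨a, b, c, rfl⟩)

theorem Curve.deg_eq (C : Curve x y) {a : K} (ha : a ∈ Algebra.adjoin (ZMod 5) {x, y})
    (ha0 : a ≠ 0) : C.place.deg a = 2 * (J x y a : ℤ) := by
  have : C.place.val a = WithZero.exp (J x y a : ℤ) := C.val_J ha ha0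
  rw [Place.deg, C.degree_eq, this, WithZero.log_exp]
  rfl

theorem Curve.sgn_const (C : Curve x y) {c : ZMod 5} (h : algebraMap (ZMod 5) K c ≠ 0) :
    C.sgn.toHom (algebraMap (ZMod 5) K c) = algebraMap (ZMod 5) _ c := by
  rw [Curve.sgn, Place.signOf_apply _ _ _ h]
  have hc : c ≠ 0 := by rintro rfl; exact h (map_zero _)
  have : C.place.val (algebraMap (ZMod 5) K c) = 1 := val_const C.val c hc
  rw [this, WithZero.log_one, zpow_zero, mul_one, C.place.rs_const]

theorem Curve.sgn_lin (C : Curve x y) {a b : ZMod 5} (c : ZMod 5) (hab : a ≠ 0 ∨ b ≠ 0)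
    (h : lin x y a b c ≠ 0) :
    C.sgn.toHom (lin x y a b c) =
      3 * (algebraMap (ZMod 5) _ a + algebraMap (ZMod 5) _ b * C.rho) := by
  rw [Curve.sgn, Place.signOf_apply _ _ _ h]
  have h1 : C.place.val (lin x y a b c) = WithZero.exp 5 := C.val_lin c hab
  rw [h1, WithZero.log_exp]
  have e : lin x y a b c * varpi x y ^ (5 : ℤ) = kap x y * (algebraMap (ZMod 5) K a +
      algebraMap (ZMod 5) K b * (y / x)) + algebraMap (ZMod 5) K c * varpi x y ^ 5 := by
    have h2 : varpi x y ^ (5 : ℤ) = varpi x y ^ 5 := by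
      exact_mod_cast zpow_natCast (varpi x y) 5
    rw [h2, lin, kap]
    have hx := C.x_ne
    field_simp
  rw [e]
  have v1 : C.place.val (kap x y) ≤ 1 := C.v_kap.le
  have vr : C.place.val (y / x) ≤ 1 := C.vr.le
  have v2 : C.place.val (algebraMap (ZMod 5) K a + algebraMap (ZMod 5) K b * (y / x)) ≤ 1 :=
    C.place.val.map_add_le (val_const_le C.val a)
      (by rw [map_mul]; exact mul_le_one' (val_const_le C.val b) vr)
  have v3 : C.place.val (algebraMap (ZMod 5) K c) ≤ 1 := val_const_le C.val c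
  have v4 : C.place.val (varpi x y ^ 5) < 1 := by
    change C.val _ < 1
    rw [C.v_varpi_pow, ← WithZero.exp_zero, WithZero.exp_lt_exp]
    norm_num
  rw [C.place.rs_add (by rw [map_mul]; exact mul_le_one' v1 v2)
    (by rw [map_mul]; exact mul_le_one' v3 v4.le), C.place.rs_mul v1 v2, C.place.rs_mul v3 v4.le,
    (C.place.rs_eq_zero_iff v4.le).mpr v4, mul_zero, add_zero, C.rs_kap, C.rs_lin]

theorem T_ne : ∀ p ∈ T, p.1 ≠ 0 ∨ p.2 ≠ 0 := by decide

theorem T_three : ∀ p ∈ T, 3 * p.2 = 0 → 3 * p.1 = 1 := by decide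

theorem three_inj : ∀ a b : ZMod 5, 3 * a = 3 * b → a = b := by decide

theorem Curve.mem_S_lin (C : Curve x y) {a b : ZMod 5} {s : C.place.Residue}
    (hs : s = 3 * (algebraMap (ZMod 5) _ a + algebraMap (ZMod 5) _ b * C.rho)) :
    s ∈ C.S ↔ (a, b) ∈ T := by
  have e3 : (algebraMap (ZMod 5) C.place.Residue 3) = 3 := map_ofNat _ 3
  constructor
  · rintro ⟨p, hp, h⟩
    rw [hs] at h
    have := C.lin_inj (a := 3 * a) (b := 3 * b) (c := 3 * p.1) (d := 3 * p.2) (by
      simp only [map_mul, e3]; linear_combination h)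
    have h1 := three_inj _ _ this.1
    have h2 := three_inj _ _ this.2
    rw [h1, h2]; exact hp
  · intro h
    exact ⟨(a, b), h, hs⟩

theorem Curve.Aplus_zero (C : Curve x y) : C.place.Aplus C.sgn C.S 0 = {1} := by
  have e3 : (algebraMap (ZMod 5) C.place.Residue 3) = 3 := map_ofNat _ 3
  have key : ∀ c : ZMod 5, ∀ s : C.place.Residue, s =
      algebraMap (ZMod 5) _ c → (s ∈ C.S ↔ c = 1) := by
    intro c s hs
    constructor
    · rintro ⟨p, hp, h⟩
      rw [hs] at h
      have := C.lin_inj (a := c) (b := 0) (c := 3 * p.1) (d := 3 * p.2) (by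
        simp only [map_mul, e3, map_zero]; linear_combination h)
      rw [this.1]
      exact T_three p hp this.2.symm
    · rintro rfl
      refine ⟨(2, 0), by decide, ?_⟩
      rw [hs, map_one, map_zero, zero_mul, add_zero, map_ofNat]
      linear_combination -C.five_res
  ext a
  constructor
  · rintro ⟨ha, ha0, hdeg, hS⟩
    rw [C.mem_ringA] at ha
    rw [C.deg_eq ha ha0] at hdeg
    have hJ : J x y a = 0 := by
      have : (2 : ℤ) * (J x y a : ℤ) = 0 := hdeg
      omega
    obtain ⟨n, hn⟩ := exists_mem_W_of_adjoin C.eq ha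
    have h1 := mem_W_J hn
    rw [hJ] at h1
    obtain ⟨c, rfl⟩ := mem_W_zero.mp h1
    have := (key c _ (C.sgn_const ha0)).mp hS
    rw [this, map_one]
    rfl
  · rintro rfl
    refine ⟨one_mem _, one_ne_zero, ?_, ?_⟩
    · rw [Place.deg, map_one, WithZero.log_one, mul_zero]; rfl
    · refine (key 1 _ ?_).mpr rfl
      rw [map_one, map_one]

theorem Curve.one_mem_S (C : Curve x y) : (1 : C.place.Residue) ∈ C.S := by
  refine ⟨(2, 0), by decide, ?_⟩
  rw [map_zero, zero_mul, add_zero, map_ofNat]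
  linear_combination -C.five_res

theorem Curve.Aplus_sub (C : Curve x y) {i : ℕ} {a : K}
    (ha : a ∈ C.place.Aplus C.sgn C.S i) : a ∈ Algebra.adjoin (ZMod 5) {x, y} ∧ a ≠ 0 ∧
      2 * J x y a = i ∧ a ∈ W x y (J x y a) := by
  obtain ⟨h1, h2, h3, h4⟩ := ha
  rw [C.mem_ringA] at h1
  rw [C.deg_eq h1 h2] at h3
  obtain ⟨n, hn⟩ := exists_mem_W_of_adjoin C.eq h1
  exact ⟨h1, h2, by exact_mod_cast h3, mem_W_J hn⟩

theorem Curve.Aplus_finite (C : Curve x y) (i : ℕ) :
    (C.place.Aplus C.sgn C.S i).Finite := by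
  apply (W_finite (x := x) (y := y) i).subset
  intro a ha
  obtain ⟨h1, h2, h3, h4⟩ := C.Aplus_sub ha
  exact W_mono (by omega) h4

theorem Curve.Aplus_small (C : Curve x y) {i : ℕ} (hi : i ≠ 0) (hi' : i < 10) :
    C.place.Aplus C.sgn C.S i = ∅ := by
  rw [Set.eq_empty_iff_forall_notMem]
  intro a ha
  obtain ⟨h1, h2, h3, h4⟩ := C.Aplus_sub ha
  have h5 : J x y a ≤ 4 := by omega
  rw [W_four h5] at h4
  have := J_le h4
  omega

open scoped Classical in
theorem Curve.Aplus_ten (C : Curve x y) : C.place.Aplus C.sgn C.S 10 =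
    ((T ×ˢ (Finset.univ : Finset (ZMod 5))).image
      (fun q => lin x y q.1.1 q.1.2 q.2) : Set K) := by
  ext a
  rw [Finset.coe_image]
  constructor
  · intro ha
    obtain ⟨h1, h2, h3, h4⟩ := C.Aplus_sub ha
    have h5 : J x y a = 5 := by omega
    rw [h5] at h4
    obtain ⟨p, q, c, hpq⟩ := mem_W_five.mp h4
    have hpq' : a = lin x y p q c := hpq
    have hne : p ≠ 0 ∨ q ≠ 0 := by
      by_contra hcon
      push Not at hcon
      have : a ∈ W x y 0 := by
        rw [hpq, hcon.1, hcon.2, map_zero, zero_mul, zero_mul, zero_add, zero_add]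
        exact mem_W_zero.mpr ⟨c, rfl⟩
      have := J_le this
      omega
    obtain ⟨-, ha0, -, hS⟩ := ha
    subst hpq'
    have := (C.mem_S_lin (C.sgn_lin c hne ha0)).mp hS
    exact ⟨((p, q), c), by simpa using this, rfl⟩
  · rintro ⟨⟨⟨p, q⟩, c⟩, hT, rfl⟩
    have hT : (p, q) ∈ T := by simpa using hT
    have hne : p ≠ 0 ∨ q ≠ 0 := T_ne (p, q) hT
    have hz := C.lin_ne c hne
    refine ⟨C.mem_ringA.mpr (lin_mem p q c), hz, ?_, (C.mem_S_lin (C.sgn_lin c hne hz)).mpr hT⟩
    have : C.place.val (lin x y p q c) = WithZero.exp 5 := C.val_lin c hne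
    change C.place.deg (lin x y p q c) = _
    rw [Place.deg, this, WithZero.log_exp, C.degree_eq]
    norm_num

theorem Curve.sum_ten (C : Curve x y) :
    ∑ᶠ a ∈ C.place.Aplus C.sgn C.S 10, a ^ 14 = -1 := by
  classical
  rw [C.Aplus_ten, finsum_mem_coe_finset, Finset.sum_image, Finset.sum_product]
  · exact sum_T C.eq
  · rintro ⟨⟨p, q⟩, c⟩ - ⟨⟨p', q'⟩, c'⟩ - h
    obtain ⟨h1, h2, h3⟩ := C.lin_inj' h
    exact Prod.ext (Prod.ext h1 h2) h3

theorem Curve.Aplus_add (C : Curve x y) {i : ℕ} (hi : 10 < i) {a : K}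
    (ha : a ∈ C.place.Aplus C.sgn C.S i) (d c : ZMod 5) :
    a + lin x y d 0 c ∈ C.place.Aplus C.sgn C.S i := by
  obtain ⟨h1, h2, h3, h4⟩ := C.Aplus_sub ha
  have hva : C.val a = WithZero.exp (J x y a : ℤ) := C.val_J h1 h2
  have hlt : C.val (lin x y d 0 c) < C.val a := by
    rw [hva]
    refine (C.val_W_le (mem_W_five.mpr ⟨d, 0, c, rfl⟩)).trans_lt ?_
    rw [WithZero.exp_lt_exp]
    push_cast
    omega
  have hadd : C.val (a + lin x y d 0 c) = C.val a := Valuation.map_add_eq_of_lt_left _ hlt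
  have hne : a + lin x y d 0 c ≠ 0 := by
    intro h0
    rw [h0, map_zero, hva] at hadd
    exact WithZero.exp_ne_zero hadd.symm
  obtain ⟨k1, k2, k3, k4⟩ := ha
  refine ⟨add_mem k1 (C.mem_ringA.mpr (lin_mem _ _ _)), hne, ?_, ?_⟩
  · rw [← k3]
    have : C.place.val (a + lin x y d 0 c) = C.place.val a := hadd
    rw [Place.deg, Place.deg, this]
  · rw [C.place.sign_add C.sgn h2 hlt]
    exact k4

theorem Curve.sum_large (C : Curve x y) {i : ℕ} (hi : 10 < i) :
    ∑ᶠ a ∈ C.place.Aplus C.sgn C.S i, a ^ 14 = 0 := by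
  classical
  rw [finsum_mem_eq_finite_toFinset_sum _ (C.Aplus_finite i)]
  set s := (C.Aplus_finite i).toFinset with hs
  let R : Setoid K :=
    { r := fun a b => ∃ d c : ZMod 5, b = a + lin x y d 0 c
      iseqv :=
        { refl := fun a => ⟨0, 0, by simp [lin]⟩
          symm := by
            rintro a b ⟨d, c, rfl⟩
            exact ⟨-d, -c, by simp only [lin, map_neg, map_zero]; ring⟩
          trans := by
            rintro a b e ⟨d, c, rfl⟩ ⟨d', c', rfl⟩
            exact ⟨d + d', c + c', by simp only [lin, map_add, map_zero]; ring⟩ } }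
  rw [Finset.sum_partition R]
  apply Finset.sum_eq_zero
  intro q hq
  obtain ⟨a, ha, rfl⟩ := Finset.mem_image.mp hq
  have hset : s.filter (fun b => (Quotient.mk R b) = Quotient.mk R a) =
      ((Finset.univ : Finset (ZMod 5)) ×ˢ (Finset.univ : Finset (ZMod 5))).image
        (fun q => a + lin x y q.1 0 q.2) := by
    ext b
    rw [Finset.mem_filter, Finset.mem_image]
    constructor
    · rintro ⟨hb, hab⟩
      obtain ⟨d, c, h⟩ := Quotient.exact hab.symm
      exact ⟨(d, c), by simp, h.symm⟩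
    · rintro ⟨⟨d, c⟩, -, rfl⟩
      refine ⟨?_, (Quotient.sound ⟨d, c, rfl⟩ : Quotient.mk R a = _).symm⟩
      rw [hs, Set.Finite.mem_toFinset] at ha ⊢
      exact C.Aplus_add hi ha d c
  have : ∑ b ∈ s.filter (fun b => (Quotient.mk R b) = Quotient.mk R a), b ^ 14 = 0 := by
    rw [hset, Finset.sum_image, Finset.sum_product]
    · have := P14_double a x
      rw [← this]
      apply Finset.sum_congr rfl
      intro d _
      apply Finset.sum_congr rfl
      intro c _
      rw [lin, map_zero, zero_mul, add_zero, add_assoc]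
    · rintro ⟨d, c⟩ - ⟨d', c'⟩ - h
      have h' : lin x y d 0 c = lin x y d' 0 c' := add_left_cancel h
      obtain ⟨h1, h2, h3⟩ := C.lin_inj' h'
      exact Prod.ext h1 h3
  exact this

/-- The Goss zeta function of the curve vanishes at `-14`. -/
theorem Curve.zeta_14 (C : Curve x y) : C.place.HasZetaValue C.sgn C.S 14 0 := by
  refine ⟨C.Aplus_finite, 11, ?_⟩
  intro n hn
  rw [Finset.sum_eq_add_of_mem 0 10 (by simp; omega) (by simp; omega) (by norm_num)]
  · rw [C.sum_ten, C.Aplus_zero, finsum_mem_singleton, one_pow]; ring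
  · rintro i - ⟨h0, h10⟩
    rcases Nat.lt_or_ge i 10 with h | h
    · rw [C.Aplus_small h0 h, finsum_mem_empty]
    · exact C.sum_large (by omega)

end Pool.Agent.H552.Goss
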